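import Pool.Agent.Helper370G.Frac

/-!
# The asymptotic bound for almost tight fractional matchings
-/

set_option autoImplicit false

open Finset

namespace Pool.Agent.Helper370G

lemma choose_bounds (n : ℕ) (hn : 6 ≤ n) : (n : ℝ) ^ 3 / 12 ≤ (n.choose 3 : ℝ) ∧
    (n.choose 3 : ℝ) ≤ (n : ℝ) ^ 3 / 6 := by
  have h := c3 n
  have h' : 6 * ((n.choose 3 : ℕ) : ℝ) = n * (n - 1) * (n - 2) := by exact_mod_cast h
  have hn' : (6 : ℝ) ≤ n := by exact_mod_cast hn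
  constructor <;> nlinarith [mul_nonneg (by linarith : (0 : ℝ) ≤ n) (by linarith : (0 : ℝ) ≤ n - 6),
    mul_nonneg (mul_nonneg (by linarith : (0 : ℝ) ≤ n) (by linarith : (0 : ℝ) ≤ n))
      (by linarith : (0 : ℝ) ≤ (n : ℝ) - 6)]

theorem asym (ε : ℝ) (hε : 0 < ε) : ∃ δ : ℝ, 0 < δ ∧ ∃ n₀ : ℕ,
    ∀ (V : Type) [Fintype V] [DecidableEq V] (H : Finset (Finset V)), (∀ e ∈ H, e.card = 3) →
      K43Free H → n₀ ≤ Fintype.card V → ∀ w : Finset V → ℝ, (∀ Q ∈ H, 0 ≤ w Q) →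
        (∀ x : V, ∑ Q ∈ H.filter (x ∈ ·), w Q ≤ 1) →
          (1 / 3 - δ) * Fintype.card V ≤ ∑ Q ∈ H, w Q →
            (2 - δ) * Fintype.card V * ∑ Q ∈ H, w Q ≤ ∑ Q ∈ H, w Q * (codSum H Q : ℝ) →
              (H.card : ℝ) ≤ (5 / 9 + ε) * ((Fintype.card V).choose 3 : ℝ) := by
  classical
  set ε' : ℝ := min ε 1 with hε'
  have hε'0 : 0 < ε' := lt_min hε one_pos
  have hε'1 : ε' ≤ 1 := min_le_right _ _
  obtain ⟨n₁, hn₁⟩ := exists_nat_gt (135 / ε')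
  refine ⟨ε' / 40, by linarith, max n₁ 500, ?_⟩
  intro V _ _ H hH hK hn w hw hv hs hcod
  set n : ℕ := Fintype.card V with hnV
  set δ : ℝ := ε' / 40 with hδ
  set s : ℝ := ∑ Q ∈ H, w Q with hsdef
  have hN1 : (n₁ : ℝ) ≤ n := by exact_mod_cast (le_max_left n₁ 500).trans hn
  have hN2 : (500 : ℝ) ≤ n := by exact_mod_cast (le_max_right n₁ 500).trans hn
  have hN6 : 6 ≤ n := by
    have := (le_max_right n₁ 500).trans hn
    omega
  obtain ⟨hc1, hc2⟩ := choose_bounds n hN6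
  have hn0 : (0 : ℝ) < n := by linarith
  have hδ0 : 0 < δ := by rw [hδ]; linarith
  have hδ1 : δ ≤ 1 / 40 := by rw [hδ]; linarith
  have hnε : 135 ≤ ε' * n := by
    have : 135 / ε' ≤ n := by linarith
    rw [div_le_iff₀ hε'0] at this
    linarith
  have hcov := cov_co hK
  have hv' : ∀ x : V, ∑ P ∈ H, w P * e x P ≤ 1 := by
    intro x
    refine le_trans (le_of_eq ?_) (hv x)
    rw [sum_filter]
    refine sum_congr rfl fun P _ => ?_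
    unfold e
    split_ifs <;> simp
  have hmain := frac_main hcov H (fun Q hQ => hH Q hQ)
    (fun Q hQ hQT => (mem_sdiff.1 hQT).2 hQ) w hw hv' s rfl
  have hcard : ((co H).card : ℝ) + H.card = (n.choose 3 : ℝ) := by exact_mod_cast card_co hH
  have hX : ∑ Q ∈ H, w Q * (two (co H) Q : ℝ) ≤ (1 + δ) * n * s := by
    have h1 : ∀ Q ∈ H, w Q * (two (co H) Q : ℝ) = 3 * (n - 2) * w Q - w Q * (codSum H Q : ℝ) := by
      intro Q hQ
      have h2 := two_add_codSum hH hQ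
      have h3 : ((two (co H) Q : ℕ) : ℝ) + codSum H Q = 3 * ((n : ℝ) - 2) := by
        have h4 : ((two (co H) Q + codSum H Q : ℕ) : ℝ) = ((3 * (n - 2) : ℕ) : ℝ) := by
          exact_mod_cast h2
        rw [Nat.cast_mul, Nat.cast_sub (by omega : 2 ≤ n)] at h4
        push_cast at h4
        exact h4
      have h5 : ((two (co H) Q : ℕ) : ℝ) = 3 * ((n : ℝ) - 2) - codSum H Q := by linarith
      rw [h5]
      ring
    rw [sum_congr rfl h1, sum_sub_distrib, ← mul_sum, ← hsdef]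
    have hs0 : 0 ≤ s := sum_nonneg hw
    nlinarith
  have hs0 : 0 ≤ s := sum_nonneg hw
  -- the lower bound for the complement
  have hs1 : 0 ≤ (1 / 3 - δ) * n := mul_nonneg (by linarith) hn0.le
  have ht1 : (2 / 3 - 6 * δ) * n - 45 ≤ 5 * s - 45 - (1 + δ) * n := by linarith
  have ht0 : 0 ≤ (2 / 3 - 6 * δ) * n - 45 := by nlinarith
  have hs2 : ((1 / 3 - δ) * n) ^ 2 ≤ s ^ 2 := pow_le_pow_left₀ hs1 hs 2
  have hprod : ((1 / 3 - δ) * n) ^ 2 * ((2 / 3 - 6 * δ) * n - 45)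
      ≤ s ^ 2 * (5 * s - 45 - (1 + δ) * n) :=
    mul_le_mul hs2 ht1 ht0 (sq_nonneg s)
  have hT : s ^ 2 * (5 * s - 45 - (1 + δ) * n) ≤ (co H).card := by
    have h1 : s * ∑ Q ∈ H, w Q * (two (co H) Q : ℝ) ≤ s * ((1 + δ) * n * s) :=
      mul_le_mul_of_nonneg_left hX hs0
    nlinarith
  have hlow : (2 / 27 - 10 / 9 * δ) * (n : ℝ) ^ 3 - 5 * (n : ℝ) ^ 2
      ≤ ((1 / 3 - δ) * n) ^ 2 * ((2 / 3 - 6 * δ) * n - 45) := by
    have h1 : ((1 / 3 - δ) * n) ^ 2 * ((2 / 3 - 6 * δ) * n - 45)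
        = ((1 / 3 - δ) ^ 2 * (2 / 3 - 6 * δ)) * (n : ℝ) ^ 3 - 45 * (1 / 3 - δ) ^ 2 * (n : ℝ) ^ 2 := by
      ring
    rw [h1]
    have h2 : 2 / 27 - 10 / 9 * δ ≤ (1 / 3 - δ) ^ 2 * (2 / 3 - 6 * δ) := by
      nlinarith [mul_nonneg (mul_nonneg hδ0.le hδ0.le) (by linarith : (0 : ℝ) ≤ 1 / 40 - δ),
        mul_nonneg hδ0.le hδ0.le]
    have h3 : 45 * (1 / 3 - δ) ^ 2 ≤ 5 := by nlinarith
    have h4 := mul_le_mul_of_nonneg_right h2 (pow_nonneg hn0.le 3)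
    have h5 := mul_le_mul_of_nonneg_right h3 (pow_nonneg hn0.le 2)
    linarith
  have hfin : (H.card : ℝ) ≤ (5 / 9 + ε') * (n.choose 3 : ℝ) := by
    have h1 : (H.card : ℝ) ≤ (n.choose 3 : ℝ) - ((2 / 27 - 10 / 9 * δ) * (n : ℝ) ^ 3
        - 5 * (n : ℝ) ^ 2) := by linarith
    have h2 : 10 / 9 * δ * (n : ℝ) ^ 3 = ε' * (n : ℝ) ^ 3 / 36 := by rw [hδ]; ring
    have h3 : 5 * (n : ℝ) ^ 2 ≤ ε' * (n : ℝ) ^ 3 / 27 := by
      have := mul_le_mul_of_nonneg_right hnε (pow_nonneg hn0.le 2)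
      nlinarith
    have h4 : ε' * ((n : ℝ) ^ 3 / 12) ≤ ε' * (n.choose 3 : ℝ) :=
      mul_le_mul_of_nonneg_left hc1 hε'0.le
    have h5 : 0 ≤ ε' * (n : ℝ) ^ 3 := mul_nonneg hε'0.le (pow_nonneg hn0.le 3)
    nlinarith
  refine hfin.trans (mul_le_mul_of_nonneg_right ?_ (Nat.cast_nonneg _))
  have := min_le_left ε 1
  linarith

end Pool.Agent.Helper370G
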