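import Pool.Agent.Helper370G.Small

/-!
# Summing over the unions of three blocks of a partition into triples and points

`M` is a set of `m` pairwise disjoint triples which are not in `T`; the blocks are the members of `M`
and the points outside them.
-/

set_option autoImplicit false

open Finset

namespace Pool.Agent.Helper370G

/-- The number of `t`-subsets of a set containing a given subset. -/
lemma card_supersets {α : Type} [DecidableEq α] (K : Finset α) (t : ℕ) (B : Finset α)
    (hBK : B ⊆ K) (hB : B.card ≤ t) :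
    ((powersetCard t K).filter (B ⊆ ·)).card = (K.card - B.card).choose (t - B.card) := by
  have h1 : (K.card - B.card).choose (t - B.card) = (powersetCard (t - B.card) (K \ B)).card := by
    rw [card_powersetCard, card_sdiff_of_subset hBK]
  rw [h1]
  refine card_bij' (fun C _ => C \ B) (fun D _ => D ∪ B) ?_ ?_ ?_ ?_
  · intro C hC
    obtain ⟨hC1, hC2⟩ := mem_filter.1 hC
    obtain ⟨hC4, hC3⟩ := mem_powersetCard.1 hC1
    refine mem_powersetCard.2 ⟨?_, ?_⟩
    · exact sdiff_subset_sdiff hC4 (Subset.refl _)
    · rw [card_sdiff_of_subset hC2, hC3]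
  · intro D hD
    obtain ⟨hD1, hD2⟩ := mem_powersetCard.1 hD
    have hdisj : Disjoint D B := by
      rw [Finset.disjoint_left]
      intro x hx hxB
      exact (mem_sdiff.1 (hD1 hx)).2 hxB
    refine mem_filter.2 ⟨mem_powersetCard.2
      ⟨union_subset (hD1.trans sdiff_subset) hBK, ?_⟩, subset_union_right⟩
    rw [card_union_of_disjoint hdisj, hD2]
    omega
  · intro C hC
    obtain ⟨-, hC2⟩ := mem_filter.1 hC
    exact sdiff_union_of_subset hC2
  · intro D hD
    obtain ⟨hD1, -⟩ := mem_powersetCard.1 hD
    have hdisj : Disjoint D B := by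
      rw [Finset.disjoint_left]
      intro x hx hxB
      exact (mem_sdiff.1 (hD1 hx)).2 hxB
    show (D ∪ B) \ B = D
    rw [union_sdiff_right]
    exact sdiff_eq_self_of_disjoint hdisj

/-- The sum of `C(|C ∩ M|, i)` over the three-element subsets `C` of `K`. -/
lemma sum_choose {α : Type} [DecidableEq α] (K M : Finset α) (hMK : M ⊆ K) (i : ℕ) (hi : i ≤ 3) :
    ∑ C ∈ powersetCard 3 K, ((C.filter (· ∈ M)).card).choose i
      = M.card.choose i * (K.card - i).choose (3 - i) := by
  have h1 : ∀ C ∈ powersetCard 3 K, ((C.filter (· ∈ M)).card).choose i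
      = ∑ B ∈ powersetCard i M, if B ⊆ C then 1 else 0 := by
    intro C _
    rw [← card_powersetCard, ← card_filter]
    congr 1
    ext B
    simp only [mem_powersetCard, mem_filter]
    constructor
    · rintro ⟨h1, h2⟩
      exact ⟨⟨fun x hx => (mem_filter.1 (h1 hx)).2, h2⟩, fun x hx => (mem_filter.1 (h1 hx)).1⟩
    · rintro ⟨⟨h1, h2⟩, h3⟩
      exact ⟨fun x hx => mem_filter.2 ⟨h3 hx, h1 hx⟩, h2⟩
  rw [sum_congr rfl h1, sum_comm]
  have h2 : ∀ B ∈ powersetCard i M, (∑ C ∈ powersetCard 3 K, if B ⊆ C then 1 else 0)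
      = (K.card - i).choose (3 - i) := by
    intro B hB
    obtain ⟨hB1, hB2⟩ := mem_powersetCard.1 hB
    rw [← card_filter, card_supersets K 3 B (hB1.trans hMK) (by omega), hB2]
  rw [sum_congr rfl h2, sum_const, card_powersetCard, smul_eq_mul]

variable {V : Type} [Fintype V] [DecidableEq V]

/-- The number of members of `T` with exactly two points in `Q`. -/
def two (T : Finset (Finset V)) (Q : Finset V) : ℕ := (T.filter (fun A => (A ∩ Q).card = 2)).card

theorem main {T : Finset (Finset V)} (h : Cov T) (M : Finset (Finset V))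
    (hM3 : ∀ Q ∈ M, Q.card = 3) (hMT : ∀ Q ∈ M, Q ∉ T)
    (hdis : ∀ Q ∈ M, ∀ Q' ∈ M, Q ≠ Q' → Disjoint Q Q') (N : ℕ)
    (hN : N + 2 * M.card = Fintype.card V) :
    3 * (M.card * (N - 1).choose 2) + 6 * (M.card.choose 2 * (N - 2)) + 3 * M.card.choose 3
      ≤ T.card + (N - 3) * ∑ Q ∈ M, two T Q := by
  classical
  set m := M.card with hm
  -- the blocks
  set W : Finset V := univ \ M.biUnion id with hW
  have hpd : (M : Set (Finset V)).PairwiseDisjoint id := by
    intro Q hQ Q' hQ' hne
    exact hdis Q hQ Q' hQ' hne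
  have hbU : (M.biUnion id).card = 3 * m := by
    rw [card_biUnion hpd]
    have : ∑ Q ∈ M, (id Q).card = ∑ Q ∈ M, 3 := sum_congr rfl (fun Q hQ => hM3 Q hQ)
    rw [this, sum_const, smul_eq_mul, mul_comm]
  have hWc : W.card + 3 * m = Fintype.card V := by
    rw [hW, card_sdiff_of_subset (subset_univ _), hbU, card_univ]
    have : (M.biUnion id).card ≤ Fintype.card V := card_le_univ _
    omega
  set K : Finset (Finset V) := M ∪ W.image (fun v => {v}) with hK
  have hMK : M ⊆ K := subset_union_left
  have hsing : ∀ Q ∈ W.image (fun v => ({v} : Finset V)), Q.card = 1 := by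
    intro Q hQ
    obtain ⟨v, -, rfl⟩ := mem_image.1 hQ
    exact card_singleton v
  have hdMW : Disjoint M (W.image (fun v => ({v} : Finset V))) := by
    rw [Finset.disjoint_left]
    intro Q hQ hQ'
    have h1 := hM3 Q hQ
    have h2 := hsing Q hQ'
    omega
  have hKc : K.card = N := by
    rw [hK, card_union_of_disjoint hdMW, card_image_of_injective _ (fun a b hab => by
      simpa using hab)]
    omega
  have hsize : ∀ Q ∈ K, Q.card = 1 + 2 * (if Q ∈ M then 1 else 0) := by
    intro Q hQ
    rcases mem_union.1 hQ with h1 | h1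
    · rw [if_pos h1, hM3 Q h1]
    · rw [if_neg (fun h2 => Finset.disjoint_left.1 hdMW h2 h1), hsing Q h1]
  -- every point is in exactly one block
  have hex : ∀ v : V, ∃ Q ∈ K, v ∈ Q := by
    intro v
    by_cases hv : v ∈ M.biUnion id
    · obtain ⟨Q, hQ, hvQ⟩ := mem_biUnion.1 hv
      exact ⟨Q, hMK hQ, hvQ⟩
    · exact ⟨{v}, mem_union_right _ (mem_image.2 ⟨v, mem_sdiff.2 ⟨mem_univ _, hv⟩, rfl⟩),
        mem_singleton_self v⟩
  have huniq : ∀ Q ∈ K, ∀ Q' ∈ K, ∀ v, v ∈ Q → v ∈ Q' → Q = Q' := by
    intro Q hQ Q' hQ' v hv hv'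
    rcases mem_union.1 hQ with h1 | h1 <;> rcases mem_union.1 hQ' with h2 | h2
    · by_contra hne
      exact Finset.disjoint_left.1 (hdis Q h1 Q' h2 hne) hv hv'
    · exfalso
      obtain ⟨w, hw, rfl⟩ := mem_image.1 h2
      rw [mem_singleton] at hv'
      subst hv'
      exact (mem_sdiff.1 hw).2 (mem_biUnion.2 ⟨Q, h1, hv⟩)
    · exfalso
      obtain ⟨w, hw, rfl⟩ := mem_image.1 h1
      rw [mem_singleton] at hv
      subst hv
      exact (mem_sdiff.1 hw).2 (mem_biUnion.2 ⟨Q', h2, hv'⟩)
    · obtain ⟨w, hw, rfl⟩ := mem_image.1 h1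
      obtain ⟨w', hw', rfl⟩ := mem_image.1 h2
      rw [mem_singleton] at hv hv'
      rw [← hv, ← hv']
  choose c hcK hc using hex
  have hcu : ∀ Q ∈ K, ∀ v ∈ Q, c v = Q := fun Q hQ v hv => huniq (c v) (hcK v) Q hQ v (hc v) hv
  -- upper bound for the sum
  have hsub : ∀ C ∈ powersetCard 3 K, ∀ A : Finset V, A ⊆ C.biUnion id ↔ A.image c ⊆ C := by
    intro C hC A
    obtain ⟨hCK, -⟩ := mem_powersetCard.1 hC
    constructor
    · intro h1 Q hQ
      obtain ⟨v, hv, rfl⟩ := mem_image.1 hQ
      obtain ⟨Q', hQ', hvQ'⟩ := mem_biUnion.1 (h1 hv)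
      rw [hcu Q' (hCK hQ') v hvQ']
      exact hQ'
    · intro h1 v hv
      exact mem_biUnion.2 ⟨c v, h1 (mem_image_of_mem c hv), hc v⟩
  have hup1 : ∑ C ∈ powersetCard 3 K, ins T (C.biUnion id)
      = ∑ A ∈ T, (N - (A.image c).card).choose (3 - (A.image c).card) := by
    have h1 : ∀ C ∈ powersetCard 3 K, ins T (C.biUnion id)
        = ∑ A ∈ T, if A.image c ⊆ C then 1 else 0 := by
      intro C hC
      rw [ins, card_filter]
      refine sum_congr rfl ?_
      intro A _
      simp only [hsub C hC]
    rw [sum_congr rfl h1, sum_comm]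
    refine sum_congr rfl ?_
    intro A hA
    rw [← card_filter, card_supersets K 3 (A.image c) ?_ (card_image_le.trans (h.three A hA).le),
      hKc]
    intro Q hQ
    obtain ⟨v, -, rfl⟩ := mem_image.1 hQ
    exact hcK v
  have hup2 : ∀ A ∈ T, (N - (A.image c).card).choose (3 - (A.image c).card)
      ≤ 1 + (N - 3) * ∑ Q ∈ M, if (A ∩ Q).card = 2 then 1 else 0 := by
    intro A hA
    have hA3 := h.three A hA
    have hk3 : (A.image c).card ≤ 3 := card_image_le.trans hA3.le
    by_cases hk : (A.image c).card = 3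
    · rw [hk, Nat.sub_self, Nat.choose_zero_right]
      omega
    · -- two points of the same colour
      have hninj : ¬ Set.InjOn c (A : Set V) := fun hinj => hk (by
        rw [card_image_of_injOn hinj, hA3])
      have hpair : ∃ x ∈ A, ∃ y ∈ A, c x = c y ∧ x ≠ y := by
        by_contra hno
        push Not at hno
        exact hninj (fun x hx y hy hxy => hno x hx y hy hxy)
      obtain ⟨x, hx, y, hy, hxy, hne⟩ := hpair
      have hxQ : x ∈ c x := hc x
      have hyQ : y ∈ c x := by rw [hxy]; exact hc y
      have hc2 : 2 ≤ (A ∩ c x).card := by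
        have : ({x, y} : Finset V) ⊆ A ∩ c x := by
          intro z hz
          rcases mem_insert.1 hz with rfl | hz
          · exact mem_inter.2 ⟨hx, hxQ⟩
          · rw [mem_singleton.1 hz]
            exact mem_inter.2 ⟨hy, hyQ⟩
        have h2 := card_le_card this
        rwa [card_pair hne] at h2
      have hQM : c x ∈ M := by
        by_contra hQM
        have h1 := hsize (c x) (hcK x)
        rw [if_neg hQM] at h1
        have h2 : (A ∩ c x).card ≤ (c x).card := card_le_card inter_subset_right
        omega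
      have hne3 : (A ∩ c x).card ≠ 3 := by
        intro h3
        have h4 : A ∩ c x = A := eq_of_subset_of_card_le inter_subset_left (by omega)
        have h5 : A ∩ c x = c x := eq_of_subset_of_card_le inter_subset_right (by
          rw [hM3 _ hQM]; omega)
        exact hMT _ hQM (by rw [← h5, h4]; exact hA)
      have hle3 : (A ∩ c x).card ≤ 3 := by
        have : (A ∩ c x).card ≤ A.card := card_le_card inter_subset_left
        omega
      have hcard2 : (A ∩ c x).card = 2 := by omega
      have hone : 1 ≤ ∑ Q ∈ M, if (A ∩ Q).card = 2 then 1 else 0 := by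
        have := single_le_sum (f := fun Q => if (A ∩ Q).card = 2 then 1 else 0)
          (fun Q _ => Nat.zero_le _) hQM
        simp only [hcard2, if_true] at this
        exact this
      -- the number of colours is two
      have hk1 : (A.image c).card = 2 := by
        have h1 : (A.image c).card ≠ 1 := by
          intro h1
          obtain ⟨Q, hQ⟩ := card_eq_one.1 h1
          have h2 : ∀ z ∈ A, z ∈ c x := by
            intro z hz
            have h3 : c z ∈ A.image c := mem_image_of_mem c hz
            have h4 : c x ∈ A.image c := mem_image_of_mem c hx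
            rw [hQ, mem_singleton] at h3 h4
            rw [h4, ← h3]
            exact hc z
          have h5 : A ∩ c x = A := inter_eq_left.2 h2
          rw [h5, hA3] at hcard2
          omega
        have h0 : (A.image c).card ≠ 0 := by
          rw [Ne, card_eq_zero, image_eq_empty]
          intro h0
          rw [h0] at hx
          exact absurd hx (notMem_empty x)
        omega
      rw [hk1, Nat.choose_one_right]
      calc N - 2 ≤ 1 + (N - 3) * 1 := by omega
        _ ≤ _ := Nat.add_le_add_left (Nat.mul_le_mul_left _ hone) _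
  have hup : ∑ C ∈ powersetCard 3 K, ins T (C.biUnion id)
      ≤ T.card + (N - 3) * ∑ Q ∈ M, two T Q := by
    rw [hup1]
    refine (sum_le_sum hup2).trans (le_of_eq ?_)
    rw [sum_add_distrib, sum_const, smul_eq_mul, mul_one, ← mul_sum, sum_comm]
    congr 2
    refine sum_congr rfl ?_
    intro Q _
    rw [two, card_filter]
  -- lower bound for the sum
  have hlow1 : ∀ C ∈ powersetCard 3 K,
      3 * ((C.filter (· ∈ M)).card).choose 1 + 6 * ((C.filter (· ∈ M)).card).choose 2
        + 3 * ((C.filter (· ∈ M)).card).choose 3 ≤ ins T (C.biUnion id) := by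
    intro C hC
    obtain ⟨hCK, hC3⟩ := mem_powersetCard.1 hC
    have hpdC : (C : Set (Finset V)).PairwiseDisjoint id := by
      intro Q hQ Q' hQ' hne
      show Disjoint Q Q'
      rw [Finset.disjoint_left]
      intro v hv hv'
      exact hne (huniq Q (hCK hQ) Q' (hCK hQ') v hv hv')
    have hUc : (C.biUnion id).card = 3 + 2 * (C.filter (· ∈ M)).card := by
      rw [card_biUnion hpdC]
      have : ∑ Q ∈ C, (id Q).card = ∑ Q ∈ C, (1 + 2 * (if Q ∈ M then 1 else 0)) :=
        sum_congr rfl (fun Q hQ => hsize Q (hCK hQ))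
      rw [this, sum_add_distrib, sum_const, hC3, ← mul_sum, ← card_filter]
      rfl
    have hj : (C.filter (· ∈ M)).card ≤ 3 := by
      rw [← hC3]
      exact card_filter_le _ _
    generalize (C.filter (· ∈ M)).card = j at hUc hj
    interval_cases j
    · simp
    · have := e5 h (C.biUnion id) (by omega)
      have h3 : Nat.choose 1 1 = 1 := rfl
      have h4 : Nat.choose 1 2 = 0 := rfl
      have h5 : Nat.choose 1 3 = 0 := rfl
      rw [h3, h4, h5]
      omega
    · have := e7 h (C.biUnion id) (by omega)
      have h3 : Nat.choose 2 1 = 2 := rfl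
      have h4 : Nat.choose 2 2 = 1 := rfl
      have h5 : Nat.choose 2 3 = 0 := rfl
      rw [h3, h4, h5]
      omega
    · have := e9 h (C.biUnion id) (by omega)
      have h3 : Nat.choose 3 1 = 3 := rfl
      have h4 : Nat.choose 3 2 = 3 := rfl
      have h5 : Nat.choose 3 3 = 1 := rfl
      rw [h3, h4, h5]
      omega
  have hlow2 := sum_le_sum hlow1
  rw [sum_add_distrib, sum_add_distrib, ← mul_sum, ← mul_sum, ← mul_sum,
    sum_choose K M hMK 1 (by omega), sum_choose K M hMK 2 (by omega),
    sum_choose K M hMK 3 (by omega), hKc] at hlow2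
  have h6 : (N - 3).choose (3 - 3) = 1 := Nat.choose_zero_right _
  have h7 : (N - 2).choose (3 - 2) = N - 2 := Nat.choose_one_right _
  have h8 : M.card.choose 1 = M.card := Nat.choose_one_right _
  rw [h6, h7, h8, mul_one] at hlow2
  exact hlow2.trans hup

end Pool.Agent.Helper370G
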