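import Pool.Agent.Helper370G.Blocks

/-!
# The exact bound for 3-graphs with a tight matching
-/

set_option autoImplicit false

open Finset

namespace Pool.Agent.Helper370G

variable {V : Type} [Fintype V] [DecidableEq V]

/-- No four vertices have all their four triples in `H`. -/
def K43Free (H : Finset (Finset V)) : Prop :=
  ∀ S : Finset V, S.card = 4 → ∃ e ⊆ S, e.card = 3 ∧ e ∉ H

/-- The sum of the numbers of members of `H` through the pairs of points of `Q`. -/
def codSum (H : Finset (Finset V)) (Q : Finset V) : ℕ :=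
  ∑ v ∈ Q, (H.filter (Q.erase v ⊆ ·)).card

/-- The complement of `H` in the family of all triples. -/
def co (H : Finset (Finset V)) : Finset (Finset V) := powersetCard 3 univ \ H

lemma cov_co {H : Finset (Finset V)} (hK : K43Free H) : Cov (co H) := by
  constructor
  · intro A hA
    exact (mem_powersetCard.1 (mem_sdiff.1 hA).1).2
  · intro S hS
    obtain ⟨e, he, he3, heH⟩ := hK S hS
    exact ⟨e, mem_sdiff.2 ⟨mem_powersetCard.2 ⟨subset_univ _, he3⟩, heH⟩, he⟩

lemma card_co {H : Finset (Finset V)} (hH : ∀ e ∈ H, e.card = 3) :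
    (co H).card + H.card = (Fintype.card V).choose 3 := by
  have hsub : H ⊆ powersetCard 3 univ :=
    fun e he => mem_powersetCard.2 ⟨subset_univ _, hH e he⟩
  rw [co, card_sdiff_of_subset hsub, card_powersetCard, card_univ]
  have := card_le_card hsub
  rw [card_powersetCard, card_univ] at this
  omega

/-- The triples not in `H` with two points in `Q`, counted by the pairs of `Q`. -/
lemma two_eq (T : Finset (Finset V)) (hT : ∀ A ∈ T, A.card = 3) (Q : Finset V) (hQ : Q.card = 3)
    (hQT : Q ∉ T) : ∑ v ∈ Q, (T.filter (Q.erase v ⊆ ·)).card = two T Q := by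
  have h1 : ∀ v ∈ Q, (T.filter (Q.erase v ⊆ ·)).card = ∑ A ∈ T, if Q.erase v ⊆ A then 1 else 0 :=
    fun v _ => card_filter _ _
  rw [sum_congr rfl h1, sum_comm, two, card_filter]
  refine sum_congr rfl ?_
  intro A hA
  rw [← card_filter]
  have hA3 := hT A hA
  have hne : A ≠ Q := fun h => hQT (h ▸ hA)
  have hiff : ∀ v, Q.erase v ⊆ A ↔ Q \ A ⊆ {v} := by
    intro v
    constructor
    · intro h x hx
      obtain ⟨hx1, hx2⟩ := mem_sdiff.1 hx
      by_contra hxv
      exact hx2 (h (mem_erase.2 ⟨fun h => hxv (mem_singleton.2 h), hx1⟩))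
    · intro h x hx
      obtain ⟨hx1, hx2⟩ := mem_erase.1 hx
      by_contra hxA
      exact hx1 (mem_singleton.1 (h (mem_sdiff.2 ⟨hx2, hxA⟩)))
  have hc : (Q \ A).card + (A ∩ Q).card = 3 := by
    rw [inter_comm, card_sdiff_add_card_inter, hQ]
  by_cases h2 : (A ∩ Q).card = 2
  · rw [if_pos h2]
    obtain ⟨u, hu⟩ := card_eq_one.1 (by omega : (Q \ A).card = 1)
    have huQ : u ∈ Q := (mem_sdiff.1 (by rw [hu]; exact mem_singleton_self u : u ∈ Q \ A)).1
    rw [card_eq_one]
    refine ⟨u, ?_⟩
    ext v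
    rw [mem_filter, mem_singleton, hiff, hu]
    constructor
    · rintro ⟨-, h⟩
      exact (mem_singleton.1 (h (mem_singleton_self u))).symm
    · rintro rfl
      exact ⟨huQ, Subset.refl _⟩
  · rw [if_neg h2, card_eq_zero, filter_eq_empty_iff]
    intro v _ h
    have h3 : (Q \ A).card ≤ 1 := by
      rw [hiff] at h
      exact (card_le_card h).trans (card_singleton v).le
    have h4 : (A ∩ Q).card ≤ 3 := by
      rw [← hA3]
      exact card_le_card inter_subset_left
    have h5 : (A ∩ Q).card = 3 := by omega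
    have h6 : A ∩ Q = A := eq_of_subset_of_card_le inter_subset_left (by omega)
    have h7 : A ∩ Q = Q := eq_of_subset_of_card_le inter_subset_right (by omega)
    exact hne (by rw [← h6, h7])

lemma two_add_codSum {H : Finset (Finset V)} (hH : ∀ e ∈ H, e.card = 3) {Q : Finset V}
    (hQ : Q ∈ H) : two (co H) Q + codSum H Q = 3 * (Fintype.card V - 2) := by
  have hQ3 := hH Q hQ
  have hQT : Q ∉ co H := fun h => (mem_sdiff.1 h).2 hQ
  rw [← two_eq (co H) (fun A hA => (mem_powersetCard.1 (mem_sdiff.1 hA).1).2) Q hQ3 hQT, codSum,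
    ← sum_add_distrib]
  have h1 : ∀ v ∈ Q, ((co H).filter (Q.erase v ⊆ ·)).card + (H.filter (Q.erase v ⊆ ·)).card
      = Fintype.card V - 2 := by
    intro v hv
    have hv2 : (Q.erase v).card = 2 := by rw [card_erase_of_mem hv, hQ3]
    have h2 := card_supersets (univ : Finset V) 3 (Q.erase v) (subset_univ _) (by omega)
    rw [hv2, card_univ, Nat.choose_one_right] at h2
    rw [← h2, ← card_union_of_disjoint]
    · congr 1
      ext A
      rw [mem_union, mem_filter, mem_filter, mem_filter, co, mem_sdiff]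
      constructor
      · rintro (⟨⟨h3, -⟩, h4⟩ | ⟨h3, h4⟩)
        · exact ⟨h3, h4⟩
        · exact ⟨mem_powersetCard.2 ⟨subset_univ _, hH A h3⟩, h4⟩
      · rintro ⟨h3, h4⟩
        by_cases hAH : A ∈ H
        · exact Or.inr ⟨hAH, h4⟩
        · exact Or.inl ⟨⟨h3, hAH⟩, h4⟩
    · rw [Finset.disjoint_left]
      intro A hA hA'
      exact (mem_sdiff.1 (mem_filter.1 hA).1).2 (mem_filter.1 hA').1
  rw [sum_congr rfl h1, sum_const, hQ3, smul_eq_mul]

lemma two_ge {T : Finset (Finset V)} (h : Cov T) {Q : Finset V} (hQ : Q.card = 3) (hQT : Q ∉ T) :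
    Fintype.card V - 3 ≤ two T Q := by
  classical
  have h1 : ∀ z : V, z ∉ Q → ∃ A ∈ T, (A ∩ Q).card = 2 ∧ z ∈ A ∧ A ⊆ insert z Q := by
    intro z hz
    obtain ⟨A, hA, hAQ⟩ := h.four (insert z Q) (by rw [card_insert_of_notMem hz, hQ])
    have hA3 := h.three A hA
    have hzA : z ∈ A := by
      by_contra hzA
      have h2 : A ⊆ Q := fun x hx => by
        rcases mem_insert.1 (hAQ hx) with rfl | h3
        · exact absurd hx hzA
        · exact h3
      exact hQT (eq_of_subset_of_card_le h2 (by omega) ▸ hA)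
    refine ⟨A, hA, ?_, hzA, hAQ⟩
    have h3 : A ∩ Q = A.erase z := by
      ext x
      rw [mem_inter, mem_erase]
      constructor
      · rintro ⟨h4, h5⟩
        exact ⟨fun h6 => hz (h6 ▸ h5), h4⟩
      · rintro ⟨h4, h5⟩
        rcases mem_insert.1 (hAQ h5) with h6 | h6
        · exact absurd h6 h4
        · exact ⟨h5, h6⟩
    rw [h3, card_erase_of_mem hzA, hA3]
  choose f hfT hf2 hfz hfQ using h1
  have h2 : (univ \ Q).card = Fintype.card V - 3 := by
    rw [card_sdiff_of_subset (subset_univ _), card_univ, hQ]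
  rw [← h2, two]
  refine card_le_card_of_injOn (fun z => if hz : z ∉ Q then f z hz else ∅) ?_ ?_
  · intro z hz
    have hz' : z ∉ Q := (mem_sdiff.1 (mem_coe.1 hz)).2
    simp only [dif_pos hz']
    exact mem_coe.2 (mem_filter.2 ⟨hfT z hz', hf2 z hz'⟩)
  · intro z hz z' hz' heq
    have h3 : z ∉ Q := (mem_sdiff.1 (mem_coe.1 hz)).2
    have h4 : z' ∉ Q := (mem_sdiff.1 (mem_coe.1 hz')).2
    simp only [dif_pos h3, dif_pos h4] at heq
    have h5 : z ∈ f z' h4 := heq ▸ hfz z h3
    rcases mem_insert.1 (hfQ z' h4 h5) with h6 | h6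
    · exact h6
    · exact absurd h6 h3

lemma codSum_le {H : Finset (Finset V)} (hH : ∀ e ∈ H, e.card = 3) (hK : K43Free H) {Q : Finset V}
    (hQ : Q ∈ H) : codSum H Q ≤ 2 * Fintype.card V - 3 := by
  have h1 := two_add_codSum hH hQ
  have h2 := two_ge (cov_co hK) (hH Q hQ) (fun h => (mem_sdiff.1 h).2 hQ)
  have h3 : 3 ≤ Fintype.card V := by
    rw [← hH Q hQ]
    exact card_le_univ Q
  omega

lemma c2 (m : ℕ) : 2 * ((m.choose 2 : ℕ) : ℤ) = m * (m - 1) := by
  induction m with
  | zero => simp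
  | succ m ih =>
    rw [Nat.choose_succ_succ' m 1, Nat.choose_one_right]
    push_cast
    linarith

lemma c3 (m : ℕ) : 6 * ((m.choose 3 : ℕ) : ℤ) = m * (m - 1) * (m - 2) := by
  induction m with
  | zero => simp
  | succ m ih =>
    rw [Nat.choose_succ_succ' m 2]
    have := c2 m
    push_cast
    linear_combination ih + 3 * this

/-- The number of edges of Turán's construction with three classes of nearly equal sizes. -/
def tnum (n : ℕ) : ℕ :=
  n / 3 * ((n + 1) / 3) * ((n + 2) / 3) + (n / 3).choose 2 * ((n + 1) / 3) +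
    ((n + 1) / 3).choose 2 * ((n + 2) / 3) + ((n + 2) / 3).choose 2 * (n / 3)

lemma arith (m r N n t h E : ℕ) (hn : n = 3 * m + r) (hN : N = m + r) (hr : r ≤ 2) (hN3 : 3 ≤ N)
    (hm : 1 ≤ m) (hth : t + h = n.choose 3)
    (hmain : 3 * (m * (N - 1).choose 2) + 6 * (m.choose 2 * (N - 2)) + 3 * m.choose 3
      ≤ t + E + (N - 3) * (m * (n - 3))) : h ≤ tnum n + E := by
  have a2 := c2 m
  have a3 := c3 m
  have an := c3 n
  have aN := c2 (N - 1)
  obtain ⟨N', rfl⟩ : ∃ N', N = N' + 3 := ⟨N - 3, by omega⟩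
  obtain ⟨n', rfl⟩ : ∃ n', n = n' + 3 := ⟨n - 3, by omega⟩
  have e1 : N' + 3 - 1 = N' + 2 := rfl
  have e2 : N' + 3 - 2 = N' + 1 := rfl
  have e3 : N' + 3 - 3 = N' := rfl
  have e4 : n' + 3 - 3 = n' := rfl
  rw [e1, e2, e3, e4] at hmain
  rw [e1] at aN
  have hmain' : (3 * (m * ((N' + 2).choose 2 : ℕ)) + 6 * ((m.choose 2 : ℕ) * (N' + 1))
      + 3 * (m.choose 3 : ℕ) : ℤ) ≤ t + E + N' * (m * n') := by exact_mod_cast hmain
  have hth' : (t : ℤ) + h = ((n' + 3).choose 3 : ℕ) := by exact_mod_cast hth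
  have hN' : (N' : ℤ) = m + r - 3 := by omega
  have hn' : (n' : ℤ) = 3 * m + r - 3 := by omega
  push_cast at a2 a3 an aN
  rw [hN'] at hmain' aN
  rw [hn'] at an hmain'
  have key : (h : ℤ) ≤ (tnum (n' + 3) : ℕ) + E := by
    generalize ((N' + 2).choose 2 : ℤ) = y at hmain' aN
    generalize ((n' + 3).choose 3 : ℤ) = z at hth' an
    have b3 : ((m.choose 3 : ℕ) : ℤ) = m.choose 3 := rfl
    interval_cases r
    · have f1 : (n' + 3) / 3 = m := by omega
      have f2 : (n' + 3 + 1) / 3 = m := by omega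
      have f3 : (n' + 3 + 2) / 3 = m := by omega
      rw [tnum, f1, f2, f3]
      push_cast at *
      generalize (m.choose 2 : ℤ) = x2 at *
      generalize (m.choose 3 : ℤ) = x3 at *
      have b1 : 2 * ((m : ℤ) * y) = m * ((m - 1) * (m - 2)) := by
        linear_combination (m : ℤ) * aN
      have b2 : 2 * (x2 * ((m : ℤ) - 2)) = m * (m - 1) * (m - 2) := by
        linear_combination ((m : ℤ) - 2) * a2
      have b4 : 2 * (x2 * (m : ℤ)) = m * (m - 1) * m := by
        linear_combination (m : ℤ) * a2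
      nlinarith [b1, b2, b4, a2, a3, an, hmain', hth']
    · have f1 : (n' + 3) / 3 = m := by omega
      have f2 : (n' + 3 + 1) / 3 = m := by omega
      have f3 : (n' + 3 + 2) / 3 = m + 1 := by omega
      have a4 := c2 (m + 1)
      rw [tnum, f1, f2, f3]
      push_cast at *
      generalize (m.choose 2 : ℤ) = x2 at *
      generalize (m.choose 3 : ℤ) = x3 at *
      generalize ((m + 1).choose 2 : ℤ) = x4 at *
      have b1 : 2 * ((m : ℤ) * y) = m * (m * (m - 1)) := by
        linear_combination (m : ℤ) * aN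
      have b2 : 2 * (x2 * ((m : ℤ) - 1)) = m * (m - 1) * (m - 1) := by
        linear_combination ((m : ℤ) - 1) * a2
      have b4 : 2 * (x2 * (m : ℤ)) = m * (m - 1) * m := by
        linear_combination (m : ℤ) * a2
      have b5 : 2 * (x4 * (m : ℤ)) = (m + 1) * m * m := by
        linear_combination (m : ℤ) * a4
      nlinarith [b1, b2, b4, b5, a2, a3, a4, an, hmain', hth']
    · have f1 : (n' + 3) / 3 = m := by omega
      have f2 : (n' + 3 + 1) / 3 = m + 1 := by omega
      have f3 : (n' + 3 + 2) / 3 = m + 1 := by omega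
      have a4 := c2 (m + 1)
      rw [tnum, f1, f2, f3]
      push_cast at *
      generalize (m.choose 2 : ℤ) = x2 at *
      generalize (m.choose 3 : ℤ) = x3 at *
      generalize ((m + 1).choose 2 : ℤ) = x4 at *
      have b1 : 2 * ((m : ℤ) * y) = m * ((m + 1) * m) := by
        linear_combination (m : ℤ) * aN
      have b4 : 2 * (x2 * (m : ℤ)) = m * (m - 1) * m := by
        linear_combination (m : ℤ) * a2
      have b5 : 2 * (x4 * (m : ℤ)) = (m + 1) * m * m := by
        linear_combination (m : ℤ) * a4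
      nlinarith [b1, b4, b5, a2, a3, a4, an, hmain', hth']
  exact_mod_cast key

theorem exact_bound {H : Finset (Finset V)} (hH : ∀ e ∈ H, e.card = 3) (hK : K43Free H)
    (M : Finset (Finset V)) (hMH : M ⊆ H)
    (hdis : ∀ Q ∈ M, ∀ Q' ∈ M, Q ≠ Q' → Disjoint Q Q') (hm : M.card = Fintype.card V / 3) :
    H.card ≤ tnum (Fintype.card V) + (Fintype.card V - 2 * (Fintype.card V / 3) - 3) *
      ∑ Q ∈ M, (2 * Fintype.card V - 3 - codSum H Q) := by
  classical
  have hc := card_co hH
  have hcov := cov_co hK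
  set n := Fintype.card V with hn
  have huniv : ins (co H) univ = (co H).card := by
    rw [ins]
    congr 1
    exact filter_true_of_mem (fun A _ => subset_univ A)
  by_cases hs : n < 3 ∨ n = 3 ∨ n = 4 ∨ n = 6
  · refine le_trans ?_ (Nat.le_add_right _ _)
    rcases hs with h1 | h1 | h1 | h1
    · rw [Nat.choose_eq_zero_of_lt h1] at hc
      omega
    · rw [h1] at hc ⊢
      have : tnum 3 = 1 := by decide
      have h3 : Nat.choose 3 3 = 1 := rfl
      omega
    · have := e4 hcov univ (by rw [card_univ, ← hn, h1])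
      rw [huniv] at this
      rw [h1] at hc ⊢
      have h2 : tnum 4 = 3 := by decide
      have h3 : Nat.choose 4 3 = 4 := rfl
      omega
    · have := e6 hcov univ (by rw [card_univ, ← hn, h1])
      rw [huniv] at this
      rw [h1] at hc ⊢
      have h2 : tnum 6 = 14 := by decide
      have h3 : Nat.choose 6 3 = 20 := rfl
      omega
  · push Not at hs
    obtain ⟨h1, h2, h3, h4⟩ := hs
    have hX : ∑ Q ∈ M, two (co H) Q ≤ M.card * (n - 3) + ∑ Q ∈ M, (2 * n - 3 - codSum H Q) := by
      have h6 : ∀ Q ∈ M, two (co H) Q ≤ (n - 3) + (2 * n - 3 - codSum H Q) := by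
        intro Q hQ
        have h5 := two_add_codSum hH (hMH hQ)
        omega
      refine (sum_le_sum h6).trans (le_of_eq ?_)
      rw [sum_add_distrib, sum_const, smul_eq_mul]
    have hmain := main hcov M (fun Q hQ => hH Q (hMH hQ))
      (fun Q hQ hQT => (mem_sdiff.1 hQT).2 (hMH hQ)) hdis (n - 2 * M.card) (by omega)
    replace hmain := hmain.trans (Nat.add_le_add_left (Nat.mul_le_mul_left _ hX) _)
    have h7 : n - 2 * (n / 3) - 3 = n - 2 * M.card - 3 := by rw [hm]
    rw [h7]
    refine arith M.card (n % 3) (n - 2 * M.card) n (co H).card H.card _ (by omega) (by omega)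
      (by omega) (by omega) (by omega) hc (hmain.trans (le_of_eq ?_))
    ring

end Pool.Agent.Helper370G
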