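import Pool.Agent.Helper370G.Exact

/-!
# The inequality for fractional matchings
-/

set_option autoImplicit false

set_option linter.unusedSectionVars false

open Finset

namespace Pool.Agent.Helper370G

variable {V : Type} [Fintype V] [DecidableEq V]

/-- The weighted sum over three members of `H`. -/
noncomputable def S3 (H : Finset (Finset V)) (w : Finset V → ℝ)
    (f : Finset V → Finset V → Finset V → ℝ) : ℝ :=
  ∑ P ∈ H, ∑ Q ∈ H, ∑ R ∈ H, w P * w Q * w R * f P Q R

lemma S3_mono (H : Finset (Finset V)) (w : Finset V → ℝ) (hw : ∀ P ∈ H, 0 ≤ w P)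
    (f g : Finset V → Finset V → Finset V → ℝ)
    (h : ∀ P ∈ H, ∀ Q ∈ H, ∀ R ∈ H, f P Q R ≤ g P Q R) : S3 H w f ≤ S3 H w g := by
  refine sum_le_sum fun P hP => sum_le_sum fun Q hQ => sum_le_sum fun R hR => ?_
  exact mul_le_mul_of_nonneg_left (h P hP Q hQ R hR)
    (mul_nonneg (mul_nonneg (hw P hP) (hw Q hQ)) (hw R hR))

lemma S3_add (H : Finset (Finset V)) (w : Finset V → ℝ)
    (f g : Finset V → Finset V → Finset V → ℝ) :
    S3 H w (fun P Q R => f P Q R + g P Q R) = S3 H w f + S3 H w g := by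
  unfold S3
  simp only [mul_add, sum_add_distrib]

lemma S3_smul (H : Finset (Finset V)) (w : Finset V → ℝ) (c : ℝ)
    (f : Finset V → Finset V → Finset V → ℝ) :
    S3 H w (fun P Q R => c * f P Q R) = c * S3 H w f := by
  unfold S3
  simp only [mul_sum]
  refine sum_congr rfl fun P _ => sum_congr rfl fun Q _ => sum_congr rfl fun R _ => ?_
  ring

lemma S3_sum (H T : Finset (Finset V)) (w : Finset V → ℝ)
    (f : Finset V → Finset V → Finset V → Finset V → ℝ) :
    S3 H w (fun P Q R => ∑ A ∈ T, f A P Q R) = ∑ A ∈ T, S3 H w (f A) := by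
  unfold S3
  simp only [mul_sum]
  rw [sum_comm]
  rw [sum_comm (s := H) (t := H)]
  have h1 : ∀ P ∈ H, ∑ Q ∈ H, ∑ R ∈ H, ∑ A ∈ T, w P * w Q * w R * f A P Q R
      = ∑ A ∈ T, ∑ Q ∈ H, ∑ R ∈ H, w P * w Q * w R * f A P Q R := by
    intro P _
    rw [sum_comm (s := T) (t := H)]
    refine sum_congr rfl fun Q _ => ?_
    rw [sum_comm]
  rw [sum_congr rfl h1, sum_comm]

lemma S3_swap12 (H : Finset (Finset V)) (w : Finset V → ℝ)
    (f : Finset V → Finset V → Finset V → ℝ) :
    S3 H w (fun P Q R => f Q P R) = S3 H w f := by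
  unfold S3
  rw [sum_comm]
  refine sum_congr rfl fun P _ => sum_congr rfl fun Q _ => sum_congr rfl fun R _ => ?_
  ring

lemma S3_swap23 (H : Finset (Finset V)) (w : Finset V → ℝ)
    (f : Finset V → Finset V → Finset V → ℝ) :
    S3 H w (fun P Q R => f P R Q) = S3 H w f := by
  unfold S3
  refine sum_congr rfl fun P _ => ?_
  rw [sum_comm]
  refine sum_congr rfl fun Q _ => sum_congr rfl fun R _ => ?_
  ring

lemma S3_prod (H : Finset (Finset V)) (w f g h : Finset V → ℝ) :
    S3 H w (fun P Q R => f P * g Q * h R)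
      = (∑ P ∈ H, w P * f P) * (∑ P ∈ H, w P * g P) * (∑ P ∈ H, w P * h P) := by
  unfold S3
  rw [sum_mul_sum, sum_mul]
  refine sum_congr rfl fun P _ => ?_
  rw [sum_mul]
  refine sum_congr rfl fun Q _ => ?_
  rw [mul_sum]
  refine sum_congr rfl fun R _ => ?_
  ring

lemma S3_pair (H : Finset (Finset V)) (w : Finset V → ℝ) (F : Finset V → Finset V → ℝ) :
    S3 H w (fun P Q _ => F P Q)
      = (∑ P ∈ H, w P * ∑ Q ∈ H, w Q * F P Q) * ∑ R ∈ H, w R := by
  unfold S3
  rw [sum_mul]
  refine sum_congr rfl fun P _ => ?_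
  have h1 : (w P * ∑ Q ∈ H, w Q * F P Q) * ∑ R ∈ H, w R
      = ∑ Q ∈ H, ∑ R ∈ H, (w P * (w Q * F P Q)) * w R := by
    have h2 : w P * ∑ Q ∈ H, w Q * F P Q = ∑ Q ∈ H, w P * (w Q * F P Q) := mul_sum _ _ _
    rw [h2, sum_mul_sum]
  rw [h1]
  refine sum_congr rfl fun Q _ => sum_congr rfl fun R _ => ?_
  ring

/-- Indicator of membership. -/
noncomputable def e (x : V) (P : Finset V) : ℝ := if x ∈ P then 1 else 0

lemma e_nonneg (x : V) (P : Finset V) : 0 ≤ e x P := by
  unfold e
  split_ifs <;> norm_num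

lemma e_mem {x : V} {P : Finset V} (h : x ∈ P) : e x P = 1 := if_pos h

/-- Indicator of: `P` has two points of `A` and `Q` contains the third. -/
noncomputable def E (A P Q : Finset V) : ℝ := if (A ∩ P).card = 2 ∧ A \ P ⊆ Q then 1 else 0

lemma E_nonneg (A P Q : Finset V) : 0 ≤ E A P Q := by
  unfold E
  split_ifs <;> norm_num

lemma E_one {a b c : V} (hab : a ≠ b) (hac : a ≠ c) (hbc : b ≠ c) {P Q : Finset V}
    (ha : a ∈ P) (hb : b ∈ P) (hc : c ∈ Q) (hcP : c ∉ P) : E {a, b, c} P Q = 1 := by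
  refine if_pos ⟨?_, ?_⟩
  · have : ({a, b, c} : Finset V) ∩ P = {a, b} := by
      ext x
      simp only [mem_inter, mem_insert, mem_singleton]
      constructor
      · rintro ⟨rfl | rfl | rfl, hx⟩
        · exact Or.inl rfl
        · exact Or.inr rfl
        · exact absurd hx hcP
      · rintro (rfl | rfl)
        · exact ⟨Or.inl rfl, ha⟩
        · exact ⟨Or.inr (Or.inl rfl), hb⟩
    rw [this, card_pair hab]
  · intro x hx
    obtain ⟨hx1, hx2⟩ := mem_sdiff.1 hx
    simp only [mem_insert, mem_singleton] at hx1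
    rcases hx1 with rfl | rfl | rfl
    · exact absurd ha hx2
    · exact absurd hb hx2
    · exact hc

lemma perm3 (a b c : V) : ({a, b, c} : Finset V) = {a, c, b} ∧ ({a, b, c} : Finset V) = {b, c, a}
    := by
  constructor <;> · ext x; simp only [mem_insert, mem_singleton]; tauto

/-- The pointwise inequality. -/
lemma pointwise {a b c : V} (hab : a ≠ b) (hac : a ≠ c) (hbc : b ≠ c) (P Q R : Finset V)
    (hP : ¬ (a ∈ P ∧ b ∈ P ∧ c ∈ P)) (hQ : ¬ (a ∈ Q ∧ b ∈ Q ∧ c ∈ Q))
    (hR : ¬ (a ∈ R ∧ b ∈ R ∧ c ∈ R)) :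
    (if ({a, b, c} : Finset V) ⊆ P ∪ Q ∪ R then (1 : ℝ) else 0) ≤
      (e a P * e b Q * e c R + e a P * e c Q * e b R + e b P * e a Q * e c R
        + e b P * e c Q * e a R + e c P * e a Q * e b R + e c P * e b Q * e a R)
      + (E {a, b, c} P Q + E {a, b, c} P R + E {a, b, c} Q P + E {a, b, c} Q R
        + E {a, b, c} R P + E {a, b, c} R Q) := by
  have n1 := mul_nonneg (mul_nonneg (e_nonneg a P) (e_nonneg b Q)) (e_nonneg c R)
  have n2 := mul_nonneg (mul_nonneg (e_nonneg a P) (e_nonneg c Q)) (e_nonneg b R)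
  have n3 := mul_nonneg (mul_nonneg (e_nonneg b P) (e_nonneg a Q)) (e_nonneg c R)
  have n4 := mul_nonneg (mul_nonneg (e_nonneg b P) (e_nonneg c Q)) (e_nonneg a R)
  have n5 := mul_nonneg (mul_nonneg (e_nonneg c P) (e_nonneg a Q)) (e_nonneg b R)
  have n6 := mul_nonneg (mul_nonneg (e_nonneg c P) (e_nonneg b Q)) (e_nonneg a R)
  have m1 := E_nonneg {a, b, c} P Q
  have m2 := E_nonneg {a, b, c} P R
  have m3 := E_nonneg {a, b, c} Q P
  have m4 := E_nonneg {a, b, c} Q R
  have m5 := E_nonneg {a, b, c} R P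
  have m6 := E_nonneg {a, b, c} R Q
  split_ifs with h
  · have ha : a ∈ P ∨ a ∈ Q ∨ a ∈ R := by
      have := h (mem_insert_self a _)
      simpa only [mem_union, or_assoc] using this
    have hb : b ∈ P ∨ b ∈ Q ∨ b ∈ R := by
      have := h (mem_insert_of_mem (mem_insert_self b _))
      simpa only [mem_union, or_assoc] using this
    have hc : c ∈ P ∨ c ∈ Q ∨ c ∈ R := by
      have := h (mem_insert_of_mem (mem_insert_of_mem (mem_singleton_self c)))
      simpa only [mem_union, or_assoc] using this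
    obtain ⟨p1, p2⟩ := perm3 a b c
    -- two points in `X`, the third in `Y`
    have kc : ∀ X Y : Finset V, ¬ (a ∈ X ∧ b ∈ X ∧ c ∈ X) → a ∈ X → b ∈ X → c ∈ Y →
        E {a, b, c} X Y = 1 := fun X Y hX h1 h2 h3 =>
      E_one hab hac hbc h1 h2 h3 (fun h4 => hX ⟨h1, h2, h4⟩)
    have kb : ∀ X Y : Finset V, ¬ (a ∈ X ∧ b ∈ X ∧ c ∈ X) → a ∈ X → c ∈ X → b ∈ Y →
        E {a, b, c} X Y = 1 := fun X Y hX h1 h2 h3 => by
      rw [p1]
      exact E_one hac hab hbc.symm h1 h2 h3 (fun h4 => hX ⟨h1, h4, h2⟩)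
    have ka : ∀ X Y : Finset V, ¬ (a ∈ X ∧ b ∈ X ∧ c ∈ X) → b ∈ X → c ∈ X → a ∈ Y →
        E {a, b, c} X Y = 1 := fun X Y hX h1 h2 h3 => by
      rw [p2]
      exact E_one hbc hab.symm hac.symm h1 h2 h3 (fun h4 => hX ⟨h4, h1, h2⟩)
    rcases ha with ha | ha | ha <;> rcases hb with hb | hb | hb <;> rcases hc with hc | hc | hc
    · exact absurd ⟨ha, hb, hc⟩ hP
    · have := kc P Q hP ha hb hc; linarith
    · have := kc P R hP ha hb hc; linarith
    · have := kb P Q hP ha hc hb; linarith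
    · have := ka Q P hQ hb hc ha; linarith
    · have : e a P * e b Q * e c R = 1 := by
        rw [e_mem ha, e_mem hb, e_mem hc]; norm_num
      linarith
    · have := kb P R hP ha hc hb; linarith
    · have : e a P * e c Q * e b R = 1 := by
        rw [e_mem ha, e_mem hc, e_mem hb]; norm_num
      linarith
    · have := ka R P hR hb hc ha; linarith
    · have := ka P Q hP hb hc ha; linarith
    · have := kb Q P hQ ha hc hb; linarith
    · have : e b P * e a Q * e c R = 1 := by
        rw [e_mem hb, e_mem ha, e_mem hc]; norm_num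
      linarith
    · have := kc Q P hQ ha hb hc; linarith
    · exact absurd ⟨ha, hb, hc⟩ hQ
    · have := kc Q R hQ ha hb hc; linarith
    · have : e c P * e a Q * e b R = 1 := by
        rw [e_mem hc, e_mem ha, e_mem hb]; norm_num
      linarith
    · have := kb Q R hQ ha hc hb; linarith
    · have := ka R Q hR hb hc ha; linarith
    · have := ka P R hP hb hc ha; linarith
    · have : e b P * e c Q * e a R = 1 := by
        rw [e_mem hb, e_mem hc, e_mem ha]; norm_num
      linarith
    · have := kb R P hR ha hc hb; linarith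
    · have : e c P * e b Q * e a R = 1 := by
        rw [e_mem hc, e_mem hb, e_mem ha]; norm_num
      linarith
    · have := ka Q R hQ hb hc ha; linarith
    · have := kb R Q hR ha hc hb; linarith
    · have := kc R P hR ha hb hc; linarith
    · have := kc R Q hR ha hb hc; linarith
    · exact absurd ⟨ha, hb, hc⟩ hR
  · linarith

/-- The sum of the weights of the members of `H` with two points in `A`. -/
noncomputable def dA (H : Finset (Finset V)) (w : Finset V → ℝ) (A : Finset V) : ℝ :=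
  ∑ P ∈ H, w P * (if (A ∩ P).card = 2 then 1 else 0)

lemma S3_E (H : Finset (Finset V)) (w : Finset V → ℝ) (hw : ∀ P ∈ H, 0 ≤ w P)
    (hv : ∀ x : V, ∑ P ∈ H, w P * e x P ≤ 1) (A : Finset V) (hA : A.card = 3) :
    S3 H w (fun P Q _ => E A P Q) ≤ dA H w A * ∑ R ∈ H, w R := by
  rw [S3_pair]
  refine mul_le_mul_of_nonneg_right ?_ (sum_nonneg hw)
  refine sum_le_sum fun P hP => mul_le_mul_of_nonneg_left ?_ (hw P hP)
  split_ifs with h2
  · obtain ⟨z, hz⟩ := card_eq_one.1 (by
      have := card_sdiff_add_card_inter A P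
      omega : (A \ P).card = 1)
    refine (sum_le_sum fun Q hQ => mul_le_mul_of_nonneg_left ?_ (hw Q hQ)).trans (hv z)
    by_cases hzQ : z ∈ Q
    · rw [e_mem hzQ]
      unfold E
      split_ifs <;> norm_num
    · have h0 : E A P Q = 0 := if_neg (fun h => hzQ (h.2 (by rw [hz]; exact mem_singleton_self z)))
      rw [h0]
      exact e_nonneg z Q
  · refine le_of_eq (sum_eq_zero fun Q _ => ?_)
    unfold E
    rw [if_neg (fun h => h2 h.1), mul_zero]

/-- The inequality for fractional matchings. -/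
theorem frac_main {T : Finset (Finset V)} (h : Cov T) (H : Finset (Finset V))
    (hH3 : ∀ Q ∈ H, Q.card = 3) (hHT : ∀ Q ∈ H, Q ∉ T) (w : Finset V → ℝ)
    (hw : ∀ P ∈ H, 0 ≤ w P) (hv : ∀ x : V, ∑ P ∈ H, w P * e x P ≤ 1) (s : ℝ)
    (hs : ∑ P ∈ H, w P = s) :
    5 * s ^ 3 - 45 * s ^ 2 ≤ T.card + s * ∑ Q ∈ H, w Q * (two T Q : ℝ) := by
  classical
  have hs0 : 0 ≤ s := hs ▸ sum_nonneg hw
  -- upper bound
  have hup : S3 H w (fun P Q R => (ins T (P ∪ Q ∪ R) : ℝ))
      ≤ 6 * T.card + 6 * (s * ∑ Q ∈ H, w Q * (two T Q : ℝ)) := by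
    have h1 : ∀ P Q R : Finset V, (ins T (P ∪ Q ∪ R) : ℝ)
        = ∑ A ∈ T, if A ⊆ P ∪ Q ∪ R then (1 : ℝ) else 0 := by
      intro P Q R
      rw [ins, card_filter]
      push_cast
      rfl
    have h2 : S3 H w (fun P Q R => (ins T (P ∪ Q ∪ R) : ℝ))
        = ∑ A ∈ T, S3 H w (fun P Q R => if A ⊆ P ∪ Q ∪ R then (1 : ℝ) else 0) := by
      rw [← S3_sum]
      congr 1
      funext P Q R
      exact h1 P Q R
    rw [h2]
    have h3 : ∀ A ∈ T, S3 H w (fun P Q R => if A ⊆ P ∪ Q ∪ R then (1 : ℝ) else 0)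
        ≤ 6 + 6 * (dA H w A * s) := by
      intro A hA
      have hA3 := h.three A hA
      obtain ⟨a, b, c, hab, hac, hbc, rfl⟩ := card_eq_three.1 hA3
      have hno : ∀ P ∈ H, ¬ (a ∈ P ∧ b ∈ P ∧ c ∈ P) := by
        rintro P hP ⟨ha, hb, hc⟩
        have hsub : ({a, b, c} : Finset V) ⊆ P := by
          intro x hx
          simp only [mem_insert, mem_singleton] at hx
          rcases hx with rfl | rfl | rfl
          · exact ha
          · exact hb
          · exact hc
        have heq := eq_of_subset_of_card_le hsub (by rw [hH3 P hP, hA3])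
        exact hHT P hP (heq ▸ hA)
      refine (S3_mono H w hw _ _ (fun P hP Q hQ R hR =>
        pointwise hab hac hbc P Q R (hno P hP) (hno Q hQ) (hno R hR))).trans ?_
      have hprod : ∀ x y z : V, S3 H w (fun P Q R => e x P * e y Q * e z R) ≤ 1 := by
        intro x y z
        rw [S3_prod]
        have d0 : ∀ t : V, 0 ≤ ∑ P ∈ H, w P * e t P :=
          fun t => sum_nonneg fun P hP => mul_nonneg (hw P hP) (e_nonneg t P)
        have := mul_le_mul (mul_le_mul (hv x) (hv y) (d0 y) zero_le_one) (hv z) (d0 z)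
          (by norm_num)
        linarith
      have hE := S3_E H w hw hv {a, b, c} hA3
      rw [hs] at hE
      have t1 : S3 H w (fun P _ R => E {a, b, c} P R) = S3 H w (fun P Q _ => E {a, b, c} P Q) :=
        S3_swap23 H w (fun P Q _ => E {a, b, c} P Q)
      have t2 : S3 H w (fun P Q _ => E {a, b, c} Q P) = S3 H w (fun P Q _ => E {a, b, c} P Q) :=
        S3_swap12 H w (fun P Q _ => E {a, b, c} P Q)
      have t3 : S3 H w (fun _ Q R => E {a, b, c} Q R) = S3 H w (fun P _ R => E {a, b, c} P R) :=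
        S3_swap12 H w (fun P _ R => E {a, b, c} P R)
      have t4 : S3 H w (fun P _ R => E {a, b, c} R P) = S3 H w (fun P Q _ => E {a, b, c} Q P) :=
        S3_swap23 H w (fun P Q _ => E {a, b, c} Q P)
      have t5 : S3 H w (fun _ Q R => E {a, b, c} R Q) = S3 H w (fun P _ R => E {a, b, c} R P) :=
        S3_swap12 H w (fun P _ R => E {a, b, c} R P)
      simp only [S3_add]
      have q1 := hprod a b c
      have q2 := hprod a c b
      have q3 := hprod b a c
      have q4 := hprod b c a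
      have q5 := hprod c a b
      have q6 := hprod c b a
      linarith
    refine (sum_le_sum h3).trans (le_of_eq ?_)
    rw [sum_add_distrib, sum_const, nsmul_eq_mul, mul_comm (T.card : ℝ) 6, ← mul_sum, ← sum_mul,
      mul_comm (∑ A ∈ T, dA H w A) s]
    congr 3
    unfold dA
    rw [sum_comm]
    refine sum_congr rfl fun Q _ => ?_
    rw [← mul_sum, two, card_filter]
    push_cast
    rfl
  -- lower bound
  have hJ : ∑ P ∈ H, w P * ∑ Q ∈ H, w Q * (if Disjoint P Q then (0 : ℝ) else 1) ≤ 3 * s := by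
    rw [← hs, mul_sum]
    refine sum_le_sum fun P hP => ?_
    rw [mul_comm 3 (w P)]
    refine mul_le_mul_of_nonneg_left ?_ (hw P hP)
    have h1 : ∀ Q ∈ H, w Q * (if Disjoint P Q then (0 : ℝ) else 1) ≤ ∑ x ∈ P, w Q * e x Q := by
      intro Q hQ
      rw [← mul_sum]
      refine mul_le_mul_of_nonneg_left ?_ (hw Q hQ)
      split_ifs with hd
      · exact sum_nonneg fun x _ => e_nonneg x Q
      · rw [Finset.not_disjoint_iff] at hd
        obtain ⟨x, hxP, hxQ⟩ := hd
        have h2 := single_le_sum (f := fun x => e x Q) (fun x _ => e_nonneg x Q) hxP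
        rw [e_mem hxQ] at h2
        exact h2
    refine (sum_le_sum h1).trans ?_
    rw [sum_comm]
    refine (sum_le_sum fun x _ => hv x).trans ?_
    rw [sum_const, hH3 P hP, nsmul_eq_mul]
    norm_num
  have hlow : 30 * s ^ 3 - 270 * s ^ 2 ≤ S3 H w (fun P Q R => (ins T (P ∪ Q ∪ R) : ℝ)) := by
    have h1 : S3 H w (fun P Q R => 30 * (1 * 1 * 1) + (-30) * ((if Disjoint P Q then (0 : ℝ) else 1)
        + (if Disjoint P R then (0 : ℝ) else 1) + (if Disjoint Q R then (0 : ℝ) else 1)))
        ≤ S3 H w (fun P Q R => (ins T (P ∪ Q ∪ R) : ℝ)) := by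
      refine S3_mono H w hw _ _ (fun P hP Q hQ R hR => ?_)
      have h0 : (0 : ℝ) ≤ (ins T (P ∪ Q ∪ R) : ℝ) := Nat.cast_nonneg _
      by_cases h12 : Disjoint P Q
      · by_cases h13 : Disjoint P R
        · by_cases h23 : Disjoint Q R
          · rw [if_pos h12, if_pos h13, if_pos h23]
            have hc : (P ∪ Q ∪ R).card = 9 := by
              rw [card_union_of_disjoint (disjoint_union_left.2 ⟨h13, h23⟩),
                card_union_of_disjoint h12, hH3 P hP, hH3 Q hQ, hH3 R hR]
            have h9 := e9 h (P ∪ Q ∪ R) hc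
            have h9' : (30 : ℝ) ≤ (ins T (P ∪ Q ∪ R) : ℝ) := by exact_mod_cast h9
            linarith
          · rw [if_pos h12, if_pos h13, if_neg h23]
            linarith
        · rw [if_pos h12, if_neg h13]
          split_ifs <;> linarith
      · rw [if_neg h12]
        split_ifs <;> linarith
    refine le_trans ?_ h1
    have t0 : S3 H w (fun P Q _ => if Disjoint P Q then (0 : ℝ) else 1) ≤ 3 * s * s := by
      rw [S3_pair, hs]
      exact mul_le_mul_of_nonneg_right hJ hs0
    have t1 : S3 H w (fun P _ R => if Disjoint P R then (0 : ℝ) else 1)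
        = S3 H w (fun P Q _ => if Disjoint P Q then (0 : ℝ) else 1) :=
      S3_swap23 H w (fun P Q _ => if Disjoint P Q then (0 : ℝ) else 1)
    have t2 : S3 H w (fun _ Q R => if Disjoint Q R then (0 : ℝ) else 1)
        = S3 H w (fun P _ R => if Disjoint P R then (0 : ℝ) else 1) :=
      S3_swap12 H w (fun P _ R => if Disjoint P R then (0 : ℝ) else 1)
    have t3 : S3 H w (fun _ _ _ => (1 : ℝ) * 1 * 1) = s * s * s := by
      have := S3_prod H w (fun _ => 1) (fun _ => 1) (fun _ => 1)
      simp only [mul_one] at this ⊢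
      rw [this, hs]
    have key : S3 H w (fun P Q R => 30 * (1 * 1 * 1) + (-30) * ((if Disjoint P Q then (0 : ℝ) else 1)
        + (if Disjoint P R then (0 : ℝ) else 1) + (if Disjoint Q R then (0 : ℝ) else 1)))
        = 30 * S3 H w (fun _ _ _ => (1 : ℝ) * 1 * 1) + (-30) *
          (S3 H w (fun P Q _ => if Disjoint P Q then (0 : ℝ) else 1)
            + S3 H w (fun P _ R => if Disjoint P R then (0 : ℝ) else 1)
            + S3 H w (fun _ Q R => if Disjoint Q R then (0 : ℝ) else 1)) := by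
      rw [S3_add, S3_smul H w 30 (fun _ _ _ => (1 : ℝ) * 1 * 1),
        S3_smul H w (-30) (fun P Q R => (if Disjoint P Q then (0 : ℝ) else 1)
        + (if Disjoint P R then (0 : ℝ) else 1) + (if Disjoint Q R then (0 : ℝ) else 1)),
        S3_add, S3_add]
    rw [key, t2, t1, t3]
    nlinarith
  nlinarith

end Pool.Agent.Helper370G
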