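import Pool.Agent.Helper370G.Asym

/-!
# Vertex-transitive 3-graphs
-/

set_option autoImplicit false
set_option linter.unusedSectionVars false

open Finset

namespace Pool.Agent.Helper370G

variable {V : Type} [Fintype V] [DecidableEq V]

/-- The images of an edge under the automorphisms carry a perfect fractional matching. -/
theorem orbit_weights (F : Finset (Finset V))
    (htr : ∀ x y : V, ∃ σ : Equiv.Perm V, (∀ A ∈ F, A.map σ.toEmbedding ∈ F) ∧ σ x = y)
    (Q : Finset V) (hQF : Q ∈ F) (q : ℕ) (hq : 1 ≤ q) (hQ : Q.card = q) :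
    ∃ w : Finset V → ℝ, (∀ I ∈ F, 0 ≤ w I) ∧
      (∀ I ∈ F, w I ≠ 0 → ∃ σ : Equiv.Perm V, (∀ A ∈ F, A.map σ.toEmbedding ∈ F) ∧
        (∀ A : Finset V, A.map σ.toEmbedding ∈ F → A ∈ F) ∧ I = Q.map σ.toEmbedding) ∧
      (∀ v : V, ∑ I ∈ F.filter (v ∈ ·), w I = 1) ∧ ∑ I ∈ F, w I = (Fintype.card V : ℝ) / q := by
  classical
  set G : Finset (Equiv.Perm V) :=
    univ.filter (fun σ => ∀ A ∈ F, A.map σ.toEmbedding ∈ F) with hG
  have hmul : ∀ σ ∈ G, ∀ τ ∈ G, σ * τ ∈ G := by
    intro σ hσ τ hτ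
    refine mem_filter.2 ⟨mem_univ _, fun A hA => ?_⟩
    have h1 := (mem_filter.1 hσ).2 _ ((mem_filter.1 hτ).2 A hA)
    have h2 : A.map (σ * τ).toEmbedding = (A.map τ.toEmbedding).map σ.toEmbedding := by
      rw [map_map]
      rfl
    rw [h2]
    exact h1
  have honto : ∀ σ ∈ G, ∀ A : Finset V, A.map σ.toEmbedding ∈ F → A ∈ F := by
    intro σ hσ A hA
    have h1 : F.image (fun B => B.map σ.toEmbedding) = F := by
      refine eq_of_subset_of_card_le ?_ ?_
      · intro B hB
        obtain ⟨C, hC, rfl⟩ := mem_image.1 hB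
        exact (mem_filter.1 hσ).2 C hC
      · rw [card_image_of_injective]
        exact map_injective _
    rw [← h1] at hA
    obtain ⟨C, hC, hCA⟩ := mem_image.1 hA
    have : C = A := map_injective _ hCA
    exact this ▸ hC
  have hGne : 0 < G.card := by
    refine card_pos.2 ⟨1, mem_filter.2 ⟨mem_univ _, fun A hA => ?_⟩⟩
    have h1 : A.map (1 : Equiv.Perm V).toEmbedding = A := by
      ext x
      rw [mem_map_equiv]
      exact Iff.rfl
    rw [h1]
    exact hA
  have hN1 : ∀ x y z : V, (G.filter (fun σ => σ x = y)).card ≤ (G.filter (fun σ => σ x = z)).card := by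
    intro x y z
    obtain ⟨τ, hτ, hτy⟩ := htr y z
    have hτG : τ ∈ G := mem_filter.2 ⟨mem_univ _, hτ⟩
    refine card_le_card_of_injOn (fun σ => τ * σ) ?_ ?_
    · intro σ hσ
      obtain ⟨h1, h2⟩ := mem_filter.1 (mem_coe.1 hσ)
      refine mem_coe.2 (mem_filter.2 ⟨hmul τ hτG σ h1, ?_⟩)
      show τ (σ x) = z
      rw [h2, hτy]
    · intro σ _ σ' _ h
      exact mul_left_cancel h
  have hN : ∀ x y : V, Fintype.card V * (G.filter (fun σ => σ x = y)).card = G.card := by
    intro x y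
    have h1 := card_eq_sum_card_fiberwise (f := fun σ : Equiv.Perm V => σ x) (s := G)
      (t := (univ : Finset V)) (fun _ _ => mem_univ _)
    have h2 : ∀ z ∈ (univ : Finset V), (G.filter (fun σ => σ x = z)).card
        = (G.filter (fun σ => σ x = y)).card := fun z _ => le_antisymm (hN1 x z y) (hN1 x y z)
    rw [h1, sum_congr rfl h2, sum_const, card_univ, smul_eq_mul]
  have hq0 : (0 : ℝ) < q := by exact_mod_cast hq
  have hG0 : (0 : ℝ) < G.card := by exact_mod_cast hGne
  have hmaps : ∀ σ ∈ G, Q.map σ.toEmbedding ∈ F := fun σ hσ => (mem_filter.1 hσ).2 Q hQF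
  set c : ℝ := (Fintype.card V : ℝ) / (q * G.card) with hc
  have hc0 : 0 ≤ c := by rw [hc]; positivity
  refine ⟨fun I => ∑ σ ∈ G.filter (fun σ => Q.map σ.toEmbedding = I), c, ?_, ?_, ?_, ?_⟩
  · intro I _
    exact sum_nonneg fun σ _ => hc0
  · intro I _ hne
    obtain ⟨σ, hσ, -⟩ := exists_ne_zero_of_sum_ne_zero hne
    obtain ⟨h1, h2⟩ := mem_filter.1 hσ
    exact ⟨σ, (mem_filter.1 h1).2, honto σ h1, h2.symm⟩
  · intro v
    rw [sum_filter]
    have h1 : ∀ I ∈ F,
        (if v ∈ I then ∑ σ ∈ G.filter (fun σ => Q.map σ.toEmbedding = I), c else 0)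
          = ∑ σ ∈ G.filter (fun σ => Q.map σ.toEmbedding = I),
            if v ∈ Q.map σ.toEmbedding then c else 0 := by
      intro I _
      split_ifs with hv
      · refine sum_congr rfl fun σ hσ => ?_
        rw [(mem_filter.1 hσ).2, if_pos hv]
      · refine (sum_eq_zero fun σ hσ => ?_).symm
        rw [(mem_filter.1 hσ).2, if_neg hv]
    rw [sum_congr rfl h1, sum_fiberwise_of_maps_to hmaps
      (fun σ : Equiv.Perm V => if v ∈ Q.map σ.toEmbedding then c else 0)]
    have h2 : ∀ σ ∈ G, (if v ∈ Q.map σ.toEmbedding then c else 0)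
        = ∑ u ∈ Q, if σ u = v then c else 0 := by
      intro σ _
      by_cases hv : v ∈ Q.map σ.toEmbedding
      · rw [if_pos hv]
        obtain ⟨u, hu, huv⟩ := mem_map.1 hv
        have huv' : σ u = v := huv
        rw [← add_sum_erase Q _ hu, if_pos huv', sum_eq_zero, add_zero]
        intro u' hu'
        refine if_neg fun h => ne_of_mem_erase hu' ?_
        exact σ.injective (h.trans huv'.symm)
      · rw [if_neg hv]
        refine (sum_eq_zero fun u hu => if_neg fun h => hv ?_).symm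
        exact mem_map.2 ⟨u, hu, h⟩
    rw [sum_congr rfl h2, sum_comm]
    have hn0 : (0 : ℝ) < Fintype.card V := by exact_mod_cast Fintype.card_pos_iff.2 ⟨v⟩
    have h3 : ∀ u ∈ Q, ∑ σ ∈ G, (if σ u = v then c else 0) = 1 / q := by
      intro u _
      rw [← sum_filter, sum_const, nsmul_eq_mul]
      have h4 : (Fintype.card V : ℝ) * ((G.filter (fun σ => σ u = v)).card : ℝ) = G.card := by
        exact_mod_cast hN u v
      rw [hc, ← h4]
      have h5 : ((G.filter (fun σ => σ u = v)).card : ℝ) ≠ 0 := by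
        intro h0
        rw [h0, mul_zero] at h4
        linarith
      field_simp
    rw [sum_congr rfl h3, sum_const, hQ, nsmul_eq_mul]
    field_simp
  · rw [sum_fiberwise_of_maps_to hmaps (fun _ => c), sum_const, nsmul_eq_mul, hc]
    field_simp

/-- The codegree sum is invariant under automorphisms. -/
lemma codSum_map (H : Finset (Finset V)) (Q : Finset V) (σ : Equiv.Perm V)
    (h1 : ∀ A ∈ H, A.map σ.toEmbedding ∈ H) (h2 : ∀ A : Finset V, A.map σ.toEmbedding ∈ H → A ∈ H) :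
    codSum H (Q.map σ.toEmbedding) = codSum H Q := by
  unfold codSum
  rw [sum_map]
  refine sum_congr rfl fun v _ => ?_
  symm
  refine card_bij (fun A _ => A.map σ.toEmbedding) ?_ ?_ ?_
  · intro A hA
    obtain ⟨hA1, hA2⟩ := mem_filter.1 hA
    refine mem_filter.2 ⟨h1 A hA1, ?_⟩
    rw [← map_erase]
    exact map_subset_map.2 hA2
  · intro A _ B _ h
    exact map_injective _ h
  · intro B hB
    obtain ⟨hB1, hB2⟩ := mem_filter.1 hB
    have h3 : (B.map σ.symm.toEmbedding).map σ.toEmbedding = B := by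
      rw [map_map]
      ext x
      simp
    refine ⟨B.map σ.symm.toEmbedding, mem_filter.2 ⟨h2 _ (by rw [h3]; exact hB1), ?_⟩, h3⟩
    rw [← map_erase, ← h3] at hB2
    exact map_subset_map.1 hB2

/-- Vertex-transitive 3-graphs with an almost tight edge. -/
theorem transitive_asym (ε : ℝ) (hε : 0 < ε) : ∃ δ : ℝ, 0 < δ ∧ ∃ n₀ : ℕ,
    ∀ (V : Type) [Fintype V] [DecidableEq V] (H : Finset (Finset V)), (∀ e ∈ H, e.card = 3) →
      K43Free H → n₀ ≤ Fintype.card V →
        (∀ x y : V, ∃ σ : Equiv.Perm V, (∀ A ∈ H, A.map σ.toEmbedding ∈ H) ∧ σ x = y) →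
          (∃ Q ∈ H, (2 - δ) * Fintype.card V ≤ (codSum H Q : ℝ)) →
            (H.card : ℝ) ≤ (5 / 9 + ε) * ((Fintype.card V).choose 3 : ℝ) := by
  obtain ⟨δ, hδ, n₀, h⟩ := asym ε hε
  refine ⟨δ, hδ, n₀, ?_⟩
  rintro V _ _ H hH hK hn htr ⟨Q, hQ, hQs⟩
  obtain ⟨w, hw0, hw1, hw2, hw3⟩ := orbit_weights H htr Q hQ 3 (by omega) (hH Q hQ)
  refine h V H hH hK hn w hw0 (fun x => (hw2 x).le) ?_ ?_
  · rw [hw3]
    have : (0 : ℝ) ≤ Fintype.card V := Nat.cast_nonneg _
    push_cast
    nlinarith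
  · rw [mul_sum]
    refine sum_le_sum fun I hI => ?_
    by_cases h0 : w I = 0
    · rw [h0]
      simp
    · obtain ⟨σ, h1, h2, rfl⟩ := hw1 I hI h0
      rw [codSum_map H Q σ h1 h2, mul_comm (w _)]
      exact mul_le_mul_of_nonneg_right hQs (hw0 _ hI)

end Pool.Agent.Helper370G
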