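import Pool.Agent.Helper370G.Orbit

/-!
# An explicit bound for vertex-transitive 3-graphs
-/

set_option autoImplicit false
set_option linter.unusedSectionVars false

open Finset

namespace Pool.Agent.Helper370G

variable {V : Type} [Fintype V] [DecidableEq V]

theorem transitive_explicit {H : Finset (Finset V)} (hH : ∀ e ∈ H, e.card = 3) (hK : K43Free H)
    (htr : ∀ x y : V, ∃ σ : Equiv.Perm V, (∀ A ∈ H, A.map σ.toEmbedding ∈ H) ∧ σ x = y)
    {Q : Finset V} (hQ : Q ∈ H) :
    (H.card : ℝ) ≤ 5 / 9 * ((Fintype.card V).choose 3 : ℝ)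
      + (2 * Fintype.card V - codSum H Q) * (Fintype.card V : ℝ) ^ 2 / 9
        + 5 * (Fintype.card V : ℝ) ^ 2 := by
  classical
  obtain ⟨w, hw0, hw1, hw2, hw3⟩ := orbit_weights H htr Q hQ 3 (by omega) (hH Q hQ)
  have hcov := cov_co hK
  set n : ℕ := Fintype.card V with hnV
  have hn3 : 3 ≤ n := by
    rw [← hH Q hQ]
    exact card_le_univ Q
  have hv' : ∀ x : V, ∑ P ∈ H, w P * e x P ≤ 1 := by
    intro x
    refine le_trans (le_of_eq ?_) (hw2 x).le
    rw [sum_filter]
    refine sum_congr rfl fun P _ => ?_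
    unfold e
    split_ifs <;> simp
  have hmain := frac_main hcov H (fun Q hQ => hH Q hQ)
    (fun Q hQ hQT => (mem_sdiff.1 hQT).2 hQ) w hw0 hv' ((n : ℝ) / 3) (by rw [hw3]; norm_num)
  have hcard : ((co H).card : ℝ) + H.card = (n.choose 3 : ℝ) := by exact_mod_cast card_co hH
  have hX : ∑ P ∈ H, w P * (two (co H) P : ℝ) = (n : ℝ) / 3 * (3 * ((n : ℝ) - 2) - codSum H Q) := by
    have h1 : ∀ P ∈ H, w P * (two (co H) P : ℝ) = w P * (3 * ((n : ℝ) - 2) - codSum H Q) := by
      intro P hP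
      by_cases h0 : w P = 0
      · rw [h0, zero_mul, zero_mul]
      · obtain ⟨σ, h1, h2, h5⟩ := hw1 P hP h0
        have h6 : codSum H P = codSum H Q := by rw [h5]; exact codSum_map H Q σ h1 h2
        have h7 := two_add_codSum hH hP
        have h3 : ((two (co H) P : ℕ) : ℝ) + codSum H P = 3 * ((n : ℝ) - 2) := by
          have h4 : ((two (co H) P + codSum H P : ℕ) : ℝ) = ((3 * (n - 2) : ℕ) : ℝ) := by
            exact_mod_cast h7
          rw [Nat.cast_mul, Nat.cast_sub (by omega : 2 ≤ n)] at h4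
          push_cast at h4
          exact h4
        rw [h6] at h3
        have h8 : ((two (co H) P : ℕ) : ℝ) = 3 * ((n : ℝ) - 2) - codSum H Q := by linarith
        rw [h8]
    rw [sum_congr rfl h1, ← sum_mul, hw3]
    norm_num
  rw [hX] at hmain
  have hc := c3 n
  have hc' : 6 * ((n.choose 3 : ℕ) : ℝ) = n * (n - 1) * (n - 2) := by exact_mod_cast hc
  have hn' : (3 : ℝ) ≤ n := by exact_mod_cast hn3
  nlinarith

end Pool.Agent.Helper370G
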