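import Mathlib

/-!
# Small values of the covering numbers `T(n, 4, 3)`

`T` is a 3-graph in which every four vertices contain an edge. The number of edges inside 5, 6, 7,
8, 9 vertices is at least 3, 6, 12, 20, 30.
-/

set_option autoImplicit false

open Finset

namespace Pool.Agent.Helper370G

variable {V : Type} [DecidableEq V]

/-- The number of members of `T` contained in `S`. -/
def ins (T : Finset (Finset V)) (S : Finset V) : ℕ := (T.filter (· ⊆ S)).card

/-- `T` consists of triples, and every four points contain one of them. -/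
structure Cov (T : Finset (Finset V)) : Prop where
  three : ∀ A ∈ T, A.card = 3
  four : ∀ S : Finset V, S.card = 4 → ∃ A ∈ T, A ⊆ S

lemma avg (T : Finset (Finset V)) (hT : ∀ A ∈ T, A.card = 3) (S : Finset V) :
    ∑ v ∈ S, ins T (S.erase v) = (S.card - 3) * ins T S := by
  have h1 : ∀ v ∈ S, ins T (S.erase v) = ∑ A ∈ T.filter (· ⊆ S), if v ∉ A then 1 else 0 := by
    intro v _
    rw [ins, ← card_filter, filter_filter]
    congr 1
    ext A
    simp only [mem_filter]
    constructor
    · rintro ⟨hA, h⟩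
      exact ⟨hA, h.trans (erase_subset _ _), fun hv' => (mem_erase.1 (h hv')).1 rfl⟩
    · rintro ⟨hA, h, hv'⟩
      exact ⟨hA, subset_erase.2 ⟨h, hv'⟩⟩
  rw [sum_congr rfl h1, sum_comm]
  have h2 : ∀ A ∈ T.filter (· ⊆ S), (∑ v ∈ S, if v ∉ A then 1 else 0) = S.card - 3 := by
    intro A hA
    obtain ⟨hA1, hA2⟩ := mem_filter.1 hA
    rw [← card_filter, ← hT A hA1, ← card_sdiff_of_subset hA2]
    congr 1
    ext v
    simp [mem_sdiff]
  rw [sum_congr rfl h2, sum_const, smul_eq_mul, mul_comm]
  rfl

lemma step {T : Finset (Finset V)} (h : Cov T) (k a : ℕ) (S : Finset V) (hS : S.card = k + 1)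
    (hk : ∀ S' : Finset V, S'.card = k → a ≤ ins T S') : (k + 1) * a ≤ (k + 1 - 3) * ins T S := by
  have h1 := avg T h.three S
  have h2 : S.card • a ≤ ∑ v ∈ S, ins T (S.erase v) :=
    card_nsmul_le_sum _ _ _ (fun v hv => hk _ (by rw [card_erase_of_mem hv]; omega))
  rw [h1, smul_eq_mul, hS] at h2
  exact h2

lemma e4 {T : Finset (Finset V)} (h : Cov T) (S : Finset V) (hS : S.card = 4) : 1 ≤ ins T S := by
  obtain ⟨A, hA, hAS⟩ := h.four S hS
  exact card_pos.2 ⟨A, mem_filter.2 ⟨hA, hAS⟩⟩

lemma e5 {T : Finset (Finset V)} (h : Cov T) (S : Finset V) (hS : S.card = 5) : 3 ≤ ins T S := by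
  have := step h 4 1 S hS (fun S' hS' => e4 h S' hS')
  omega

lemma e6 {T : Finset (Finset V)} (h : Cov T) (S : Finset V) (hS : S.card = 6) : 6 ≤ ins T S := by
  have := step h 5 3 S hS (fun S' hS' => e5 h S' hS')
  omega

/-- If six points contain only six triples, then any five of them contain three. -/
lemma six_tight {T : Finset (Finset V)} (h : Cov T) (S : Finset V) (hS : S.card = 6)
    (h6 : ins T S = 6) : ∀ v ∈ S, ins T (S.erase v) = 3 := by
  have h1 := avg T h.three S
  rw [hS, h6] at h1
  have h2 : ∀ v ∈ S, 3 ≤ ins T (S.erase v) :=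
    fun v hv => e5 h _ (by rw [card_erase_of_mem hv]; omega)
  intro v hv
  have h3 := add_sum_erase S (fun v => ins T (S.erase v)) hv
  have h4 : (S.erase v).card • 3 ≤ ∑ w ∈ S.erase v, ins T (S.erase w) :=
    card_nsmul_le_sum _ _ _ (fun w hw => h2 w (mem_of_mem_erase hw))
  rw [card_erase_of_mem hv, hS, smul_eq_mul] at h4
  have h5 := h2 v hv
  omega

lemma e7 {T : Finset (Finset V)} (h : Cov T) (S : Finset V) (hS : S.card = 7) : 12 ≤ ins T S := by
  by_contra hlt
  have hs := step h 6 6 S hS (fun S' hS' => e6 h S' hS')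
  have h11 : ins T S = 11 := by omega
  have hsum := avg T h.three S
  rw [hS, h11] at hsum
  have hg : ∀ v ∈ S, 6 ≤ ins T (S.erase v) :=
    fun v hv => e6 h _ (by rw [card_erase_of_mem hv]; omega)
  -- a vertex with `g > 6`
  have hex : ∃ a ∈ S, 7 ≤ ins T (S.erase a) := by
    by_contra hno
    push Not at hno
    have h1 : ∑ v ∈ S, ins T (S.erase v) ≤ S.card • 6 :=
      sum_le_card_nsmul _ _ _ (fun v hv => by have := hno v hv; omega)
    rw [hS, smul_eq_mul] at h1
    omega
  obtain ⟨a, haS, ha⟩ := hex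
  have hca : (S.erase a).card = 6 := by rw [card_erase_of_mem haS]; omega
  have hsa := avg T h.three (S.erase a)
  rw [hca] at hsa
  have hg3 : ∀ v ∈ S.erase a, ins T (S.erase v) = 6 → ins T ((S.erase a).erase v) = 3 := by
    intro v hv hv6
    have hvS := mem_of_mem_erase hv
    have h1 := six_tight h (S.erase v) (by rw [card_erase_of_mem hvS]; omega) hv6 a
      (mem_erase.2 ⟨(ne_of_mem_erase hv).symm, haS⟩)
    rwa [erase_right_comm] at h1
  have hex2 : ∃ b ∈ S.erase a, 7 ≤ ins T (S.erase b) := by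
    by_contra hno
    push Not at hno
    have h1 : ∑ v ∈ S.erase a, ins T ((S.erase a).erase v) = ∑ v ∈ S.erase a, 3 := by
      refine sum_congr rfl ?_
      intro v hv
      refine hg3 v hv ?_
      have h2 := hno v hv
      have h3 := hg v (mem_of_mem_erase hv)
      omega
    rw [h1, sum_const, hca, smul_eq_mul] at hsa
    omega
  obtain ⟨b, hb, hb7⟩ := hex2
  have hbS := mem_of_mem_erase hb
  have hab : b ≠ a := ne_of_mem_erase hb
  -- all other vertices have `g = 6`
  have e1 := add_sum_erase S (fun v => ins T (S.erase v)) haS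
  have e2 := add_sum_erase (S.erase a) (fun v => ins T (S.erase v)) hb
  have hcab : ((S.erase a).erase b).card = 5 := by rw [card_erase_of_mem hb]; omega
  have e3 : ((S.erase a).erase b).card • 6 ≤ ∑ v ∈ (S.erase a).erase b, ins T (S.erase v) :=
    card_nsmul_le_sum _ _ _ (fun w hw => hg w (mem_of_mem_erase (mem_of_mem_erase hw)))
  rw [hcab, smul_eq_mul] at e3
  have ga : ins T (S.erase a) = 7 := by omega
  have gb : ins T (S.erase b) = 7 := by omega
  have hrest : ∀ v ∈ (S.erase a).erase b, ins T (S.erase v) = 6 := by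
    intro v hv
    have f1 := add_sum_erase ((S.erase a).erase b) (fun v => ins T (S.erase v)) hv
    have f2 : (((S.erase a).erase b).erase v).card • 6
        ≤ ∑ w ∈ ((S.erase a).erase b).erase v, ins T (S.erase w) :=
      card_nsmul_le_sum _ _ _ (fun w hw => hg w
        (mem_of_mem_erase (mem_of_mem_erase (mem_of_mem_erase hw))))
    rw [card_erase_of_mem hv, hcab, smul_eq_mul] at f2
    have f3 := hg v (mem_of_mem_erase (mem_of_mem_erase hv))
    omega
  have hU6 : ins T ((S.erase a).erase b) = 6 := by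
    have f1 := add_sum_erase (S.erase a) (fun v => ins T ((S.erase a).erase v)) hb
    have f2 : ∑ v ∈ (S.erase a).erase b, ins T ((S.erase a).erase v)
        = ∑ v ∈ (S.erase a).erase b, 3 :=
      sum_congr rfl (fun v hv => hg3 v (mem_of_mem_erase hv) (hrest v hv))
    rw [sum_const, hcab, smul_eq_mul] at f2
    omega
  -- the members which contain `a` and not `b`
  set U : Finset V := (S.erase a).erase b with hU
  have hUb : U = (S.erase b).erase a := by rw [hU, erase_right_comm]
  have hone : ((T.filter (· ⊆ S.erase b)).filter (a ∈ ·)).card = 1 := by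
    have f1 := card_filter_add_card_filter_not (s := T.filter (· ⊆ S.erase b)) (a ∈ ·)
    have f2 : (T.filter (· ⊆ S.erase b)).filter (fun A => ¬ a ∈ A) = T.filter (· ⊆ U) := by
      ext A
      simp only [mem_filter]
      have hse : A ⊆ (S.erase b).erase a ↔ A ⊆ S.erase b ∧ a ∉ A := subset_erase
      rw [hUb, hse]
      constructor
      · rintro ⟨⟨h1, h2⟩, h3⟩
        exact ⟨h1, h2, h3⟩
      · rintro ⟨h1, h2, h3⟩
        exact ⟨⟨h1, h2⟩, h3⟩
    rw [f2] at f1
    have f3 : (T.filter (· ⊆ S.erase b)).card = 7 := gb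
    have f4 : (T.filter (· ⊆ U)).card = 6 := hU6
    omega
  obtain ⟨f, hf⟩ := card_eq_one.1 hone
  have hfm : f ∈ (T.filter (· ⊆ S.erase b)).filter (a ∈ ·) := by rw [hf]; exact mem_singleton_self f
  obtain ⟨hfm1, haf⟩ := mem_filter.1 hfm
  obtain ⟨hfT, hfS⟩ := mem_filter.1 hfm1
  have hkey : ∀ B ∈ powersetCard 3 U, B ∉ T → f.erase a ⊆ B := by
    intro B hB hBT
    obtain ⟨hBU, hB3⟩ := mem_powersetCard.1 hB
    have haB : a ∉ B := fun haB => by
      have := hBU haB
      rw [hUb] at this
      exact (ne_of_mem_erase this) rfl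
    obtain ⟨A, hAT, hAB⟩ := h.four (insert a B) (by rw [card_insert_of_notMem haB, hB3])
    have haA : a ∈ A := by
      by_contra haA
      have h1 : A ⊆ B := fun x hx => by
        rcases mem_insert.1 (hAB hx) with rfl | h2
        · exact absurd hx haA
        · exact h2
      have h2 : A = B := eq_of_subset_of_card_le h1 (by rw [hB3, h.three A hAT])
      exact hBT (h2 ▸ hAT)
    have hAf : A ∈ (T.filter (· ⊆ S.erase b)).filter (a ∈ ·) := by
      refine mem_filter.2 ⟨mem_filter.2 ⟨hAT, ?_⟩, haA⟩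
      intro x hx
      rcases mem_insert.1 (hAB hx) with rfl | h2
      · exact mem_erase.2 ⟨hab.symm, haS⟩
      · have := hBU h2
        rw [hUb] at this
        exact mem_of_mem_erase this
    rw [hf, mem_singleton] at hAf
    subst hAf
    intro x hx
    obtain ⟨hx1, hx2⟩ := mem_erase.1 hx
    rcases mem_insert.1 (hAB hx2) with h3 | h3
    · exact absurd h3 hx1
    · exact h3
  have hp2 : (f.erase a).card = 2 := by rw [card_erase_of_mem haf, h.three f hfT]
  have hpU : f.erase a ⊆ U := by
    rw [hUb]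
    intro x hx
    obtain ⟨hx1, hx2⟩ := mem_erase.1 hx
    exact mem_erase.2 ⟨hx1, hfS hx2⟩
  have hc1 : ((powersetCard 3 U).filter (· ∈ T)).card = 6 := by
    rw [← hU6, ins]
    congr 1
    ext A
    simp only [mem_filter, mem_powersetCard]
    constructor
    · rintro ⟨⟨h1, -⟩, h2⟩
      exact ⟨h2, h1⟩
    · rintro ⟨h1, h2⟩
      exact ⟨⟨h2, h.three A h1⟩, h1⟩
  have hc2 : (powersetCard 3 U).card = 10 := by
    rw [card_powersetCard, hcab]
    rfl
  have hc3 := card_filter_add_card_filter_not (s := powersetCard 3 U) (· ∈ T)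
  have hc4 : ((powersetCard 3 U).filter (fun A => ¬ A ∈ T)).card ≤ 3 := by
    have g1 : ((powersetCard 3 U).filter (fun A => ¬ A ∈ T)).card
        ≤ (powersetCard 1 (U \ f.erase a)).card := by
      refine card_le_card_of_injOn (fun B => B \ f.erase a) ?_ ?_
      · intro B hB
        obtain ⟨hB1, hB2⟩ := mem_filter.1 (mem_coe.1 hB)
        have hB3 := hkey B hB1 hB2
        obtain ⟨hB4, hB5⟩ := mem_powersetCard.1 hB1
        refine mem_coe.2 (mem_powersetCard.2 ⟨sdiff_subset_sdiff hB4 (Subset.refl _), ?_⟩)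
        rw [card_sdiff_of_subset hB3, hB5, hp2]
      · intro B hB B' hB' hBB
        obtain ⟨hB1, hB2⟩ := mem_filter.1 (mem_coe.1 hB)
        obtain ⟨hB1', hB2'⟩ := mem_filter.1 (mem_coe.1 hB')
        have hB3 := hkey B hB1 hB2
        have hB3' := hkey B' hB1' hB2'
        simp only at hBB
        rw [← sdiff_union_of_subset hB3, hBB, sdiff_union_of_subset hB3']
    rw [card_powersetCard, card_sdiff_of_subset hpU, hcab, hp2] at g1
    exact g1
  omega

lemma e8 {T : Finset (Finset V)} (h : Cov T) (S : Finset V) (hS : S.card = 8) : 20 ≤ ins T S := by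
  have := step h 7 12 S hS (fun S' hS' => e7 h S' hS')
  omega

lemma e9 {T : Finset (Finset V)} (h : Cov T) (S : Finset V) (hS : S.card = 9) : 30 ≤ ins T S := by
  have := step h 8 20 S hS (fun S' hS' => e8 h S' hS')
  omega

end Pool.Agent.Helper370G
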