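import Pool.Agent.Helper370G.Exact

/-!
# Turán's construction with classes of nearly equal sizes has a tight matching
-/

set_option autoImplicit false

open Finset

namespace Pool.Agent.Helper370G

section pattern

variable {V : Type} [Fintype V] [DecidableEq V]

/-- The number of triples with a given pattern. -/
lemma card_pattern (P : Fin 3 → Finset V) (hd : ∀ i j, i ≠ j → Disjoint (P i) (P j))
    (i j k : ℕ) (hs : i + j + k = 3) :
    ((powersetCard 3 (univ : Finset V)).filter (fun A => (A ∩ P 0).card = i ∧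
      (A ∩ P 1).card = j ∧ (A ∩ P 2).card = k)).card
      = (P 0).card.choose i * (P 1).card.choose j * (P 2).card.choose k := by
  have h01 := hd 0 1 (by decide)
  have h02 := hd 0 2 (by decide)
  have h12 := hd 1 2 (by decide)
  rw [← card_powersetCard, ← card_powersetCard, ← card_powersetCard, ← card_product,
    ← card_product]
  symm
  refine card_bij (fun X _ => X.1.1 ∪ X.1.2 ∪ X.2) ?_ ?_ ?_
  · rintro ⟨⟨X, Y⟩, Z⟩ hX
    simp only [mem_product, mem_powersetCard] at hX
    obtain ⟨⟨⟨hX1, hX2⟩, hY1, hY2⟩, hZ1, hZ2⟩ := hX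
    have dXY : Disjoint X Y := disjoint_of_subset_left hX1 (disjoint_of_subset_right hY1 h01)
    have dXZ : Disjoint X Z := disjoint_of_subset_left hX1 (disjoint_of_subset_right hZ1 h02)
    have dYZ : Disjoint Y Z := disjoint_of_subset_left hY1 (disjoint_of_subset_right hZ1 h12)
    have dU : Disjoint (X ∪ Y) Z := disjoint_union_left.2 ⟨dXZ, dYZ⟩
    have e0 : (X ∪ Y ∪ Z) ∩ P 0 = X := by
      ext x
      simp only [mem_inter, mem_union]
      constructor
      · rintro ⟨(h | h) | h, h'⟩
        · exact h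
        · exact absurd (hY1 h) (Finset.disjoint_left.1 h01 h')
        · exact absurd (hZ1 h) (Finset.disjoint_left.1 h02 h')
      · intro h
        exact ⟨Or.inl (Or.inl h), hX1 h⟩
    have e1 : (X ∪ Y ∪ Z) ∩ P 1 = Y := by
      ext x
      simp only [mem_inter, mem_union]
      constructor
      · rintro ⟨(h | h) | h, h'⟩
        · exact absurd h' (Finset.disjoint_left.1 h01 (hX1 h))
        · exact h
        · exact absurd (hZ1 h) (Finset.disjoint_left.1 h12 h')
      · intro h
        exact ⟨Or.inl (Or.inr h), hY1 h⟩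
    have e2 : (X ∪ Y ∪ Z) ∩ P 2 = Z := by
      ext x
      simp only [mem_inter, mem_union]
      constructor
      · rintro ⟨(h | h) | h, h'⟩
        · exact absurd h' (Finset.disjoint_left.1 h02 (hX1 h))
        · exact absurd h' (Finset.disjoint_left.1 h12 (hY1 h))
        · exact h
      · intro h
        exact ⟨Or.inr h, hZ1 h⟩
    refine mem_filter.2 ⟨mem_powersetCard.2 ⟨subset_univ _, ?_⟩, ?_, ?_, ?_⟩
    · rw [card_union_of_disjoint dU, card_union_of_disjoint dXY, hX2, hY2, hZ2, hs]
    · rw [e0, hX2]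
    · rw [e1, hY2]
    · rw [e2, hZ2]
  · rintro ⟨⟨X, Y⟩, Z⟩ hX ⟨⟨X', Y'⟩, Z'⟩ hX' heq
    simp only [mem_product, mem_powersetCard] at hX hX'
    obtain ⟨⟨⟨hX1, hX2⟩, hY1, hY2⟩, hZ1, hZ2⟩ := hX
    obtain ⟨⟨⟨hX1', hX2'⟩, hY1', hY2'⟩, hZ1', hZ2'⟩ := hX'
    simp only at heq
    have key : ∀ (A B C A' B' C' : Finset V) (a b c : Fin 3), a ≠ b → a ≠ c → A ⊆ P a →
        B ⊆ P b → C ⊆ P c → A' ⊆ P a → B' ⊆ P b → C' ⊆ P c →
        (∀ x, (x ∈ A ∨ x ∈ B ∨ x ∈ C) ↔ (x ∈ A' ∨ x ∈ B' ∨ x ∈ C')) → A = A' := by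
      intro A B C A' B' C' a b c hab hac hA hB hC hA' hB' hC' h
      ext x
      constructor
      · intro hx
        rcases (h x).1 (Or.inl hx) with h1 | h1 | h1
        · exact h1
        · exact absurd (hB' h1) (Finset.disjoint_left.1 (hd a b hab) (hA hx))
        · exact absurd (hC' h1) (Finset.disjoint_left.1 (hd a c hac) (hA hx))
      · intro hx
        rcases (h x).2 (Or.inl hx) with h1 | h1 | h1
        · exact h1
        · exact absurd (hB h1) (Finset.disjoint_left.1 (hd a b hab) (hA' hx))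
        · exact absurd (hC h1) (Finset.disjoint_left.1 (hd a c hac) (hA' hx))
    have hx : ∀ x, (x ∈ X ∨ x ∈ Y ∨ x ∈ Z) ↔ (x ∈ X' ∨ x ∈ Y' ∨ x ∈ Z') := by
      intro x
      have := congrArg (x ∈ ·) heq
      simp only [mem_union, eq_iff_iff] at this
      rw [← or_assoc, ← or_assoc]
      exact this
    have g1 : X = X' := key X Y Z X' Y' Z' 0 1 2 (by decide) (by decide) hX1 hY1 hZ1 hX1' hY1' hZ1' hx
    have g2 : Y = Y' := key Y X Z Y' X' Z' 1 0 2 (by decide) (by decide) hY1 hX1 hZ1 hY1' hX1' hZ1'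
      (fun x => by have := hx x; tauto)
    have g3 : Z = Z' := key Z X Y Z' X' Y' 2 0 1 (by decide) (by decide) hZ1 hX1 hY1 hZ1' hX1' hY1'
      (fun x => by have := hx x; tauto)
    rw [g1, g2, g3]
  · intro A hA
    obtain ⟨hA1, hA2, hA3, hA4⟩ := mem_filter.1 hA
    obtain ⟨-, hA5⟩ := mem_powersetCard.1 hA1
    refine ⟨((A ∩ P 0, A ∩ P 1), A ∩ P 2), ?_, ?_⟩
    · simp only [mem_product, mem_powersetCard]
      exact ⟨⟨⟨inter_subset_right, hA2⟩, inter_subset_right, hA3⟩, inter_subset_right, hA4⟩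
    · simp only
      have hsub : A ∩ P 0 ∪ A ∩ P 1 ∪ A ∩ P 2 ⊆ A :=
        union_subset (union_subset inter_subset_left inter_subset_left) inter_subset_left
      refine eq_of_subset_of_card_le hsub ?_
      rw [card_union_of_disjoint, card_union_of_disjoint]
      · omega
      · exact disjoint_of_subset_left inter_subset_right
          (disjoint_of_subset_right inter_subset_right h01)
      · refine disjoint_union_left.2 ⟨?_, ?_⟩
        · exact disjoint_of_subset_left inter_subset_right
            (disjoint_of_subset_right inter_subset_right h02)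
        · exact disjoint_of_subset_left inter_subset_right
            (disjoint_of_subset_right inter_subset_right h12)

/-- Turán's construction for the classes of `g`. -/
def turan (g : V → Fin 3) : Finset (Finset V) :=
  (powersetCard 3 univ).filter (fun A => ∀ k : Fin 3,
    2 ≤ (A ∩ univ.filter (g · = k)).card → 1 ≤ (A ∩ univ.filter (g · = k + 1)).card)

lemma sum_classes (g : V → Fin 3) (A : Finset V) :
    (A ∩ univ.filter (g · = 0)).card + (A ∩ univ.filter (g · = 1)).card
      + (A ∩ univ.filter (g · = 2)).card = A.card := by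
  have h1 := card_eq_sum_card_fiberwise (f := g) (s := A) (t := (univ : Finset (Fin 3)))
    (fun x _ => mem_univ _)
  rw [Fin.sum_univ_three] at h1
  rw [h1]
  have h2 : ∀ k : Fin 3, A ∩ univ.filter (g · = k) = A.filter (g · = k) := by
    intro k
    ext x
    simp [mem_inter, mem_filter]
  rw [h2, h2, h2]

lemma turan_free (g : V → Fin 3) : K43Free (turan g) := by
  intro S hS
  have hsum := sum_classes g S
  rw [hS] at hsum
  -- subsets with a prescribed pattern
  have hex : ∀ a b c : ℕ, a ≤ (S ∩ univ.filter (g · = 0)).card →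
      b ≤ (S ∩ univ.filter (g · = 1)).card → c ≤ (S ∩ univ.filter (g · = 2)).card →
      ∃ e ⊆ S, (e ∩ univ.filter (g · = 0)).card = a ∧ (e ∩ univ.filter (g · = 1)).card = b ∧
        (e ∩ univ.filter (g · = 2)).card = c := by
    intro a b c ha hb hc
    obtain ⟨X, hX1, hX2⟩ := exists_subset_card_eq ha
    obtain ⟨Y, hY1, hY2⟩ := exists_subset_card_eq hb
    obtain ⟨Z, hZ1, hZ2⟩ := exists_subset_card_eq hc
    have gX : ∀ x ∈ X, x ∈ S ∧ g x = 0 := fun x hx => by
      have := hX1 hx
      simpa [mem_inter, mem_filter] using this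
    have gY : ∀ x ∈ Y, x ∈ S ∧ g x = 1 := fun x hx => by
      have := hY1 hx
      simpa [mem_inter, mem_filter] using this
    have gZ : ∀ x ∈ Z, x ∈ S ∧ g x = 2 := fun x hx => by
      have := hZ1 hx
      simpa [mem_inter, mem_filter] using this
    refine ⟨X ∪ Y ∪ Z, ?_, ?_, ?_, ?_⟩
    · intro x hx
      simp only [mem_union] at hx
      rcases hx with (hx | hx) | hx
      · exact (gX x hx).1
      · exact (gY x hx).1
      · exact (gZ x hx).1
    · rw [← hX2]
      congr 1
      ext x
      simp only [mem_inter, mem_union, mem_filter, mem_univ, true_and]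
      constructor
      · rintro ⟨(hx | hx) | hx, h0⟩
        · exact hx
        · rw [(gY x hx).2] at h0
          exact absurd h0 (by decide)
        · rw [(gZ x hx).2] at h0
          exact absurd h0 (by decide)
      · intro hx
        exact ⟨Or.inl (Or.inl hx), (gX x hx).2⟩
    · rw [← hY2]
      congr 1
      ext x
      simp only [mem_inter, mem_union, mem_filter, mem_univ, true_and]
      constructor
      · rintro ⟨(hx | hx) | hx, h0⟩
        · rw [(gX x hx).2] at h0
          exact absurd h0 (by decide)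
        · exact hx
        · rw [(gZ x hx).2] at h0
          exact absurd h0 (by decide)
      · intro hx
        exact ⟨Or.inl (Or.inr hx), (gY x hx).2⟩
    · rw [← hZ2]
      congr 1
      ext x
      simp only [mem_inter, mem_union, mem_filter, mem_univ, true_and]
      constructor
      · rintro ⟨(hx | hx) | hx, h0⟩
        · rw [(gX x hx).2] at h0
          exact absurd h0 (by decide)
        · rw [(gY x hx).2] at h0
          exact absurd h0 (by decide)
        · exact hx
      · intro hx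
        exact ⟨Or.inr hx, (gZ x hx).2⟩
  -- a pattern outside the construction
  have hpat : ∃ a b c : ℕ, a ≤ (S ∩ univ.filter (g · = 0)).card ∧
      b ≤ (S ∩ univ.filter (g · = 1)).card ∧ c ≤ (S ∩ univ.filter (g · = 2)).card ∧
      a + b + c = 3 ∧ ((2 ≤ a ∧ b = 0) ∨ (2 ≤ b ∧ c = 0) ∨ (2 ≤ c ∧ a = 0)) := by
    generalize (S ∩ univ.filter (g · = 0)).card = s0 at *
    generalize (S ∩ univ.filter (g · = 1)).card = s1 at *
    generalize (S ∩ univ.filter (g · = 2)).card = s2 at *
    by_cases h0 : 3 ≤ s0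
    · exact ⟨3, 0, 0, by omega, by omega, by omega, by omega, by omega⟩
    by_cases h1 : 3 ≤ s1
    · exact ⟨0, 3, 0, by omega, by omega, by omega, by omega, by omega⟩
    by_cases h2 : 3 ≤ s2
    · exact ⟨0, 0, 3, by omega, by omega, by omega, by omega, by omega⟩
    by_cases h3 : 2 ≤ s0 ∧ 1 ≤ s2
    · exact ⟨2, 0, 1, by omega, by omega, by omega, by omega, by omega⟩
    by_cases h4 : 2 ≤ s1 ∧ 1 ≤ s0
    · exact ⟨1, 2, 0, by omega, by omega, by omega, by omega, by omega⟩
    · exact ⟨0, 1, 2, by omega, by omega, by omega, by omega, by omega⟩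
  obtain ⟨a, b, c, ha, hb, hc, habc, hbad⟩ := hpat
  obtain ⟨e, heS, ea, eb, ec⟩ := hex a b c ha hb hc
  have he3 := sum_classes g e
  rw [ea, eb, ec, habc] at he3
  refine ⟨e, heS, he3.symm, ?_⟩
  intro heT
  have hcond := (mem_filter.1 heT).2
  have c0 := hcond 0
  have c1 := hcond 1
  have c2' := hcond 2
  have z1 : (0 : Fin 3) + 1 = 1 := rfl
  have z2 : (1 : Fin 3) + 1 = 2 := rfl
  have z3 : (2 : Fin 3) + 1 = 0 := rfl
  rw [z1, ea, eb] at c0
  rw [z2, eb, ec] at c1
  rw [z3, ec, ea] at c2'
  omega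

lemma card_turan (g : V → Fin 3) (a b c : ℕ) (ha : (univ.filter (g · = 0)).card = a)
    (hb : (univ.filter (g · = 1)).card = b) (hc : (univ.filter (g · = 2)).card = c) :
    (turan g).card = a * b * c + a.choose 2 * b + b.choose 2 * c + c.choose 2 * a := by
  have hd : ∀ i j : Fin 3, i ≠ j → Disjoint (univ.filter (g · = i)) (univ.filter (g · = j)) := by
    intro i j hij
    rw [Finset.disjoint_left]
    intro x hx hx'
    exact hij ((mem_filter.1 hx).2.symm.trans (mem_filter.1 hx').2)
  have h1 := card_pattern (fun k => univ.filter (g · = k)) hd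
  rw [ha, hb, hc] at h1
  have e1 := h1 1 1 1 (by rfl)
  have e2 := h1 2 1 0 (by rfl)
  have e3 := h1 0 2 1 (by rfl)
  have e4 := h1 1 0 2 (by rfl)
  simp only [Nat.choose_one_right, Nat.choose_zero_right, mul_one, one_mul] at e1 e2 e3 e4
  rw [← e1, ← e2, ← e3, mul_comm (c.choose 2) a, ← e4, ← card_union_of_disjoint,
    ← card_union_of_disjoint, ← card_union_of_disjoint]
  · congr 1
    ext A
    simp only [turan, mem_union, mem_filter]
    have z1 : (0 : Fin 3) + 1 = 1 := rfl
    have z2 : (1 : Fin 3) + 1 = 2 := rfl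
    have z3 : (2 : Fin 3) + 1 = 0 := rfl
    have hs := sum_classes g A
    rw [Fin.forall_fin_succ, Fin.forall_fin_succ, Fin.forall_fin_succ]
    have y1 : (Fin.succ 0 : Fin 3) = 1 := rfl
    have y2 : (Fin.succ (Fin.succ 0) : Fin 3) = 2 := rfl
    rw [y1, y2, z1, z2, z3, mem_powersetCard]
    constructor
    · rintro ⟨⟨hA, hA3⟩, c0, c1, c2', -⟩
      have : (((A ∩ univ.filter (g · = 0)).card = 1 ∧ (A ∩ univ.filter (g · = 1)).card = 1 ∧
          (A ∩ univ.filter (g · = 2)).card = 1) ∨
          ((A ∩ univ.filter (g · = 0)).card = 2 ∧ (A ∩ univ.filter (g · = 1)).card = 1 ∧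
          (A ∩ univ.filter (g · = 2)).card = 0)) ∨
          ((A ∩ univ.filter (g · = 0)).card = 0 ∧ (A ∩ univ.filter (g · = 1)).card = 2 ∧
          (A ∩ univ.filter (g · = 2)).card = 1) ∨
          ((A ∩ univ.filter (g · = 0)).card = 1 ∧ (A ∩ univ.filter (g · = 1)).card = 0 ∧
          (A ∩ univ.filter (g · = 2)).card = 2) := by omega
      rcases this with (h | h) | h | h
      · exact Or.inl (Or.inl (Or.inl ⟨⟨hA, hA3⟩, h⟩))
      · exact Or.inl (Or.inl (Or.inr ⟨⟨hA, hA3⟩, h⟩))
      · exact Or.inl (Or.inr ⟨⟨hA, hA3⟩, h⟩)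
      · exact Or.inr ⟨⟨hA, hA3⟩, h⟩
    · rintro (((⟨⟨hA, hA3⟩, h⟩ | ⟨⟨hA, hA3⟩, h⟩) | ⟨⟨hA, hA3⟩, h⟩) | ⟨⟨hA, hA3⟩, h⟩)
      all_goals
        obtain ⟨h5, h6, h7⟩ := h
        refine ⟨⟨hA, hA3⟩, ?_, ?_, ?_, fun i => i.elim0⟩
        all_goals
          intro h8
          omega
  all_goals
    rw [Finset.disjoint_left]
    intro A hA hA'
    simp only [mem_union, mem_filter] at hA hA'
    omega

end pattern

end Pool.Agent.Helper370G
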