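import Pool.Agent.Helper370G.Turan

/-!
# The tight matching of Turán's construction
-/

set_option autoImplicit false

open Finset

namespace Pool.Agent.Helper370G

section gen

variable {V : Type} [Fintype V] [DecidableEq V]

lemma cod_pair (g : V → Fin 3) (q : Fin 3 → V) (hq : ∀ k, g (q k) = k) (k : Fin 3) :
    Fintype.card V ≤ ((turan g).filter (({q (k + 1), q (k + 2)} : Finset V) ⊆ ·)).card
      + (univ.filter (g · = k + 2)).card + 1 := by
  classical
  have k12 : k + 1 ≠ k + 2 := by revert k; decide
  have kk1 : k ≠ k + 1 := by revert k; decide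
  have kk2 : k ≠ k + 2 := by revert k; decide
  have k112 : k + 1 + 1 = k + 2 := by revert k; decide
  have hall : ∀ j : Fin 3, j = k ∨ j = k + 1 ∨ j = k + 2 := by revert k; decide
  set Z : Finset V := univ \ insert (q (k + 1)) (univ.filter (g · = k + 2)) with hZ
  have hZc : Fintype.card V ≤ Z.card + (univ.filter (g · = k + 2)).card + 1 := by
    have h1 : (insert (q (k + 1)) (univ.filter (g · = k + 2))).card
        ≤ (univ.filter (g · = k + 2)).card + 1 := card_insert_le _ _
    have h2 := card_sdiff_of_subset (subset_univ (insert (q (k + 1)) (univ.filter (g · = k + 2))))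
    rw [card_univ, ← hZ] at h2
    omega
  have hzZ : ∀ z ∈ Z, z ≠ q (k + 1) ∧ g z ≠ k + 2 ∧ z ≠ q (k + 2) := by
    intro z hz
    have h1 := (mem_sdiff.1 hz).2
    rw [mem_insert, mem_filter, not_or] at h1
    refine ⟨h1.1, fun h => h1.2 ⟨mem_univ _, h⟩, ?_⟩
    rintro rfl
    exact h1.2 ⟨mem_univ _, hq _⟩
  have hq12 : q (k + 1) ≠ q (k + 2) := by
    intro h
    have := congrArg g h
    rw [hq, hq] at this
    exact k12 this
  have hle : Z.card ≤ ((turan g).filter (({q (k + 1), q (k + 2)} : Finset V) ⊆ ·)).card := by
    refine card_le_card_of_injOn (fun z => {z, q (k + 1), q (k + 2)}) ?_ ?_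
    · intro z hz
      obtain ⟨h1, h2, h3⟩ := hzZ z (mem_coe.1 hz)
      refine mem_coe.2 (mem_filter.2 ⟨mem_filter.2 ⟨mem_powersetCard.2 ⟨subset_univ _, ?_⟩, ?_⟩,
        ?_⟩)
      · exact card_eq_three.2 ⟨z, q (k + 1), q (k + 2), h1, h3, hq12, rfl⟩
      · intro j hj
        beta_reduce at hj
        rcases hall j with rfl | rfl | rfl
        · exfalso
          have : ({z, q (j + 1), q (j + 2)} : Finset V) ∩ univ.filter (g · = j) ⊆ {z} := by
            intro x hx
            obtain ⟨hx1, hx2⟩ := mem_inter.1 hx
            have hx3 := (mem_filter.1 hx2).2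
            rcases mem_insert.1 hx1 with rfl | hx1
            · exact mem_singleton_self _
            · rcases mem_insert.1 hx1 with rfl | hx1
              · rw [hq] at hx3
                exact absurd hx3.symm kk1
              · rw [mem_singleton.1 hx1, hq] at hx3
                exact absurd hx3.symm kk2
          have := card_le_card this
          rw [card_singleton] at this
          omega
        · refine card_pos.2 ⟨q (k + 2), mem_inter.2 ⟨?_, mem_filter.2 ⟨mem_univ _, ?_⟩⟩⟩
          · simp
          · rw [hq, k112]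
        · exfalso
          have : ({z, q (k + 1), q (k + 2)} : Finset V) ∩ univ.filter (g · = k + 2)
              ⊆ {q (k + 2)} := by
            intro x hx
            obtain ⟨hx1, hx2⟩ := mem_inter.1 hx
            have hx3 := (mem_filter.1 hx2).2
            rcases mem_insert.1 hx1 with rfl | hx1
            · exact absurd hx3 h2
            · rcases mem_insert.1 hx1 with rfl | hx1
              · rw [hq] at hx3
                exact absurd hx3 k12
              · exact hx1
          have := card_le_card this
          rw [card_singleton] at this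
          omega
      · intro x hx
        rcases mem_insert.1 hx with rfl | hx
        · simp
        · rw [mem_singleton.1 hx]
          simp
    · intro z hz z' hz' heq
      obtain ⟨h1, h2, h3⟩ := hzZ z (mem_coe.1 hz)
      simp only at heq
      have : z ∈ ({z', q (k + 1), q (k + 2)} : Finset V) := by
        rw [← heq]
        exact mem_insert_self _ _
      rcases mem_insert.1 this with h4 | h4
      · exact h4
      · rcases mem_insert.1 h4 with h4 | h4
        · exact absurd h4 h1
        · exact absurd (mem_singleton.1 h4) h3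
  omega

lemma cod_turan (g : V → Fin 3) (q : Fin 3 → V) (hq : ∀ k, g (q k) = k) :
    2 * Fintype.card V - 3 ≤ codSum (turan g) (univ.image q) := by
  have hinj : Function.Injective q := by
    intro a b hab
    have := congrArg g hab
    rwa [hq, hq] at this
  have her : ∀ k : Fin 3, (univ.image q).erase (q k) = {q (k + 1), q (k + 2)} := by
    intro k
    ext x
    simp only [mem_erase, mem_image, mem_univ, true_and, mem_insert, mem_singleton]
    constructor
    · rintro ⟨h1, j, rfl⟩
      have hall : ∀ j k : Fin 3, j = k ∨ j = k + 1 ∨ j = k + 2 := by decide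
      rcases hall j k with rfl | rfl | rfl
      · exact absurd rfl h1
      · exact Or.inl rfl
      · exact Or.inr rfl
    · rintro (rfl | rfl)
      · refine ⟨fun h => ?_, k + 1, rfl⟩
        have h1 := hinj h
        have h2 : ∀ k : Fin 3, k + 1 ≠ k := by decide
        exact h2 k h1
      · refine ⟨fun h => ?_, k + 2, rfl⟩
        have h1 := hinj h
        have h2 : ∀ k : Fin 3, k + 2 ≠ k := by decide
        exact h2 k h1
  rw [codSum, sum_image (fun a _ b _ h => hinj h), Fin.sum_univ_three, her, her, her]
  have h0 := cod_pair g q hq 0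
  have h1 := cod_pair g q hq 1
  have h2 := cod_pair g q hq 2
  have hs := sum_classes g univ
  rw [univ_inter, univ_inter, univ_inter, card_univ] at hs
  have z1 : (0 : Fin 3) + 2 = 2 := rfl
  have z2 : (1 : Fin 3) + 2 = 0 := rfl
  have z3 : (2 : Fin 3) + 2 = 1 := rfl
  rw [z1] at h0 ⊢
  rw [z2] at h1 ⊢
  rw [z3] at h2 ⊢
  omega

lemma mem_turan (g : V → Fin 3) (q : Fin 3 → V) (hq : ∀ k, g (q k) = k) :
    univ.image q ∈ turan g := by
  have hinj : Function.Injective q := by
    intro a b hab
    have := congrArg g hab
    rwa [hq, hq] at this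
  refine mem_filter.2 ⟨mem_powersetCard.2 ⟨subset_univ _, ?_⟩, ?_⟩
  · rw [card_image_of_injective _ hinj]
    rfl
  · intro k hk
    exfalso
    have : univ.image q ∩ univ.filter (g · = k) ⊆ {q k} := by
      intro x hx
      obtain ⟨hx1, hx2⟩ := mem_inter.1 hx
      obtain ⟨j, -, rfl⟩ := mem_image.1 hx1
      have hx3 := (mem_filter.1 hx2).2
      rw [hq] at hx3
      rw [hx3]
      exact mem_singleton_self _
    have := card_le_card this
    rw [card_singleton] at this
    omega

end gen

/-- The class of a point. -/
def cls (n : ℕ) (x : Fin n) : Fin 3 := if x.val % 3 = 2 then 0 else if x.val % 3 = 1 then 1 else 2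

lemma count_mod (n r : ℕ) (hr : r < 3) :
    ((univ : Finset (Fin n)).filter (fun x => x.val % 3 = r)).card = (n + 2 - r) / 3 := by
  have h1 : ((univ : Finset (Fin n)).filter (fun x => x.val % 3 = r)).card
      = ((range n).filter (· % 3 = r)).card := by
    rw [← card_image_of_injective _ Fin.val_injective]
    congr 1
    ext y
    simp only [mem_image, mem_filter, mem_univ, true_and, mem_range]
    constructor
    · rintro ⟨x, hx, rfl⟩
      exact ⟨x.isLt, hx⟩
    · rintro ⟨hy, hy'⟩
      exact ⟨⟨y, hy⟩, hy', rfl⟩
  rw [h1]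
  clear h1
  induction n with
  | zero => simp; omega
  | succ n ih =>
    rw [range_add_one, filter_insert]
    split_ifs with h
    · rw [card_insert_of_notMem (by simp), ih]
      omega
    · rw [ih]
      omega

lemma card_cls (n : ℕ) : ((univ : Finset (Fin n)).filter (cls n · = 0)).card = n / 3 ∧
    ((univ : Finset (Fin n)).filter (cls n · = 1)).card = (n + 1) / 3 ∧
    ((univ : Finset (Fin n)).filter (cls n · = 2)).card = (n + 2) / 3 := by
  have h0 : ∀ x : Fin n, cls n x = 0 ↔ x.val % 3 = 2 := by
    intro x
    unfold cls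
    split_ifs with h1 h2
    · simp [h1]
    · simp [h2]
    · simp only [Fin.reduceEq, false_iff]
      omega
  have h1 : ∀ x : Fin n, cls n x = 1 ↔ x.val % 3 = 1 := by
    intro x
    unfold cls
    split_ifs with h1 h2
    · simp [h1]
    · simp [h2]
    · simp only [Fin.reduceEq, false_iff]
      omega
  have h2 : ∀ x : Fin n, cls n x = 2 ↔ x.val % 3 = 0 := by
    intro x
    unfold cls
    split_ifs with h1 h2
    · simp [h1]
    · simp [h2]
    · simp only [true_iff]
      omega
  simp only [h0, h1, h2]
  rw [count_mod n 2 (by omega), count_mod n 1 (by omega), count_mod n 0 (by omega)]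
  omega

/-- The points of a block. -/
def blk (n : ℕ) (i : Fin (n / 3)) (k : Fin 3) : Fin n :=
  ⟨3 * i.val + (2 - k.val), by have := i.isLt; omega⟩

lemma blk_cls (n : ℕ) (i : Fin (n / 3)) (k : Fin 3) : cls n (blk n i k) = k := by
  unfold cls blk
  fin_cases k <;> simp <;> omega

lemma blk_div (n : ℕ) (i : Fin (n / 3)) (k : Fin 3) : (blk n i k).val / 3 = i.val := by
  unfold blk
  have := k.isLt
  simp only
  omega

theorem exists_turan (n : ℕ) : ∃ H : Finset (Finset (Fin n)), (∀ e ∈ H, e.card = 3) ∧ K43Free H ∧
    (∃ M ⊆ H, M.card = n / 3 ∧ (∀ Q ∈ M, ∀ Q' ∈ M, Q ≠ Q' → Disjoint Q Q') ∧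
      ∀ Q ∈ M, 2 * n - 3 ≤ codSum H Q) ∧ H.card = tnum n := by
  classical
  refine ⟨turan (cls n), fun e he => (mem_powersetCard.1 (mem_filter.1 he).1).2,
    turan_free (cls n), ⟨univ.image (fun i => univ.image (blk n i)), ?_, ?_, ?_, ?_⟩, ?_⟩
  · intro Q hQ
    obtain ⟨i, -, rfl⟩ := mem_image.1 hQ
    exact mem_turan (cls n) (blk n i) (blk_cls n i)
  · rw [card_image_of_injective, card_univ, Fintype.card_fin]
    intro i j hij
    simp only at hij
    have h1 : blk n i 0 ∈ univ.image (blk n j) := by
      rw [← hij]
      exact mem_image_of_mem _ (mem_univ _)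
    obtain ⟨k, -, hk⟩ := mem_image.1 h1
    have h2 := blk_div n i 0
    have h3 := blk_div n j k
    rw [hk, h2] at h3
    exact Fin.ext h3
  · intro Q hQ Q' hQ' hne
    obtain ⟨i, -, rfl⟩ := mem_image.1 hQ
    obtain ⟨j, -, rfl⟩ := mem_image.1 hQ'
    rw [Finset.disjoint_left]
    intro x hx hx'
    obtain ⟨k, -, rfl⟩ := mem_image.1 hx
    obtain ⟨l, -, hl⟩ := mem_image.1 hx'
    have h2 := blk_div n i k
    have h3 := blk_div n j l
    rw [hl, h2] at h3
    have h4 : i = j := Fin.ext h3
    exact hne (by rw [h4])
  · intro Q hQ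
    obtain ⟨i, -, rfl⟩ := mem_image.1 hQ
    have := cod_turan (cls n) (blk n i) (blk_cls n i)
    rwa [Fintype.card_fin] at this
  · obtain ⟨h0, h1, h2⟩ := card_cls n
    rw [card_turan (cls n) _ _ _ h0 h1 h2]
    rfl

end Pool.Agent.Helper370G
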